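import Pool.Agent.R88.LS.Stm

/-!
# Project LS (MP_d24e49_pr), piece A: general facts on the process
-/

set_option autoImplicit false

namespace Pool.Agent.R88.LS

open scoped ENNReal

namespace PA

theorem bind_congr {α β : Type} (p : PMF α) (f g : α → PMF β) (h : ∀ a ∈ p.support, f a = g a) :
    p.bind f = p.bind g := by
  ext b
  rw [PMF.bind_apply, PMF.bind_apply]
  refine tsum_congr fun a => ?_
  by_cases ha : a ∈ p.support
  · rw [h a ha]
  · have : p a = 0 := by
      rwa [PMF.mem_support_iff, not_not] at ha
    rw [this, zero_mul, zero_mul]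

variable {V : Type} [Fintype V] [DecidableEq V] (G : SimpleGraph V) (X : V → ℕ)

omit [DecidableEq V] in
theorem aux_neg (t : ℕ) (v : V) (h : ¬ ∃ w, G.Adj v w ∧ X w < X v) :
    placeAux G X t v = PMF.pure v := by
  cases t with
  | zero => rfl
  | succ t => rw [placeAux, dif_neg h]

omit [DecidableEq V] in
theorem mem_min {v w : V} (h : ∃ w, G.Adj v w ∧ X w < X v)
    (hw : w ∈ (PMF.uniformOfFinset (minNbr G X v)
        (minNbr_nonempty G X v ⟨h.choose, h.choose_spec.1⟩)).support) :
    G.Adj v w ∧ (∀ z, G.Adj v z → X w ≤ X z) ∧ X w < X v := by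
  classical
  have h1 : w ∈ minNbr G X v := by
    simpa using hw
  unfold minNbr at h1
  have h2 := (Finset.mem_filter.1 h1).2
  obtain ⟨z, hz1, hz2⟩ := h
  exact ⟨h2.1, h2.2, lt_of_le_of_lt (h2.2 z hz1) hz2⟩

omit [DecidableEq V] in
theorem fuel (t s : ℕ) (w : V) (h : X w ≤ t) (h' : X w ≤ s) :
    placeAux G X t w = placeAux G X s w := by
  induction t generalizing s w with
  | zero =>
    have hn : ¬ ∃ z, G.Adj w z ∧ X z < X w := by
      rintro ⟨z, _, hz⟩
      omega
    rw [aux_neg G X _ w hn, aux_neg G X _ w hn]
  | succ t ih =>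
    by_cases hn : ∃ z, G.Adj w z ∧ X z < X w
    · obtain ⟨s', rfl⟩ : ∃ s', s = s' + 1 := by
        obtain ⟨z, _, hz⟩ := hn
        exact ⟨s - 1, by omega⟩
      rw [placeAux, placeAux, dif_pos hn, dif_pos hn]
      refine bind_congr _ _ _ fun a ha => ?_
      have h1 := (mem_min G X hn ha).2.2
      exact ih s' a (by omega) (by omega)
    · rw [aux_neg G X _ w hn, aux_neg G X _ w hn]

omit [DecidableEq V] in
theorem place_pos (v : V) (h : ∃ w, G.Adj v w ∧ X w < X v) : place G X v =
    (PMF.uniformOfFinset (minNbr G X v)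
        (minNbr_nonempty G X v ⟨h.choose, h.choose_spec.1⟩)).bind (fun w => place G X w) := by
  obtain ⟨s, hs⟩ : ∃ s, X v = s + 1 := by
    obtain ⟨z, _, hz⟩ := h
    exact ⟨X v - 1, by omega⟩
  conv_lhs => rw [place, hs, placeAux, dif_pos h]
  refine bind_congr _ _ _ fun a ha => ?_
  have h1 := (mem_min G X h ha).2.2
  exact fuel G X s (X a) a (by omega) le_rfl

omit [DecidableEq V] in
theorem place_neg (v : V) (h : ¬ ∃ w, G.Adj v w ∧ X w < X v) : place G X v = PMF.pure v :=
  aux_neg G X _ v h

omit [DecidableEq V] in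
theorem place_min (v w : V) (hw : w ∈ (place G X v).support) (z : V) (hz : G.Adj w z) :
    X w ≤ X z := by
  induction hn : X v using Nat.strong_induction_on generalizing v with
  | _ n ih =>
    by_cases h : ∃ w, G.Adj v w ∧ X w < X v
    · rw [place_pos G X v h, PMF.mem_support_bind_iff] at hw
      obtain ⟨a, ha, hwa⟩ := hw
      have h1 := (mem_min G X h ha).2.2
      exact ih (X a) (by omega) a hwa rfl
    · rw [place_neg G X v h, PMF.mem_support_pure_iff] at hw
      subst hw
      by_contra hc
      exact h ⟨z, hz, by omega⟩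

theorem step_facts (u : V) (Y : V → ℕ) (hY : Y ∈ (step G X u).support) :
    (Lip G X → Lip G Y) ∧ ∀ v, X v ≤ Y v := by
  rw [step, PMF.mem_support_map_iff] at hY
  obtain ⟨w, hw, rfl⟩ := hY
  have hle : ∀ v, X v ≤ Function.update X w (X w + 1) v := by
    intro v
    by_cases hv : v = w
    · subst hv
      rw [Function.update_self]
      omega
    · rw [Function.update_of_ne hv]
  refine ⟨fun hL a b hab => ?_, hle⟩
  have hb := hle b
  by_cases ha : a = w
  · subst ha
    have := place_min G X u a hw b hab
    rw [Function.update_self]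
    omega
  · rw [Function.update_of_ne ha]
    have := hL a b hab
    omega

theorem run_facts (l : List V) (Y : V → ℕ) (hY : Y ∈ (run G l X).support) :
    (Lip G X → Lip G Y) ∧ ∀ v, X v ≤ Y v := by
  induction l generalizing X with
  | nil =>
    rw [run, PMF.mem_support_pure_iff] at hY
    subst hY
    exact ⟨id, fun _ => le_rfl⟩
  | cons u l ih =>
    rw [run, PMF.mem_support_bind_iff] at hY
    obtain ⟨Z, hZ, hY⟩ := hY
    have h1 := step_facts G X u Z hZ
    have h2 := ih Z hY
    exact ⟨fun h => h2.1 (h1.1 h), fun v => (h1.2 v).trans (h2.2 v)⟩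

variable [Nonempty V]

/-- `m` balls from the state `X` -/
noncomputable def A (m : ℕ) (X : V → ℕ) : PMF (V → ℕ) := (iid V m).bind fun l => run G l X

/-- one ball -/
noncomputable def F (X : V → ℕ) : PMF (V → ℕ) := (PMF.uniformOfFintype V).bind fun u => step G X u

theorem A_zero : A G 0 X = PMF.pure X := by
  rw [A, iid, PMF.pure_bind, run]

theorem A_succ' (m : ℕ) : A G (m + 1) X =
    (PMF.uniformOfFintype V).bind fun u => (step G X u).bind fun Y => A G m Y := by
  rw [A, iid, PMF.bind_bind]
  congr 1
  funext u
  rw [PMF.bind_map]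
  have h1 : ((fun l => run G l X) ∘ fun l => u :: l) =
      fun l => (step G X u).bind (fun Y => run G l Y) := by
    funext l
    rfl
  rw [h1, PMF.bind_comm]
  rfl

theorem A_succ (m : ℕ) : A G (m + 1) X = (A G m X).bind (F G) := by
  induction m generalizing X with
  | zero =>
    rw [A_succ', A_zero, PMF.pure_bind, F]
    congr 1
    funext u
    have h1 : (fun Y => A G 0 Y) = fun Y => PMF.pure Y := by
      funext Y
      exact A_zero G Y
    rw [h1]
    exact PMF.bind_pure _
  | succ m ih =>
    rw [A_succ', A_succ', PMF.bind_bind]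
    congr 1
    funext u
    rw [PMF.bind_bind]
    congr 1
    funext Y
    exact ih Y

theorem A_add (m n : ℕ) : A G (m + n) X = (A G m X).bind (A G n) := by
  induction n with
  | zero =>
    have h1 : A G 0 = fun Y => PMF.pure Y := by
      funext Y
      exact A_zero G Y
    rw [h1]
    exact (PMF.bind_pure _).symm
  | succ n ih =>
    rw [← add_assoc, A_succ, ih, PMF.bind_bind]
    congr 1
    funext Y
    exact (A_succ G Y n).symm

omit [Nonempty V] in
theorem run_append (l l' : List V) : run G (l ++ l') X = (run G l X).bind (run G l') := by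
  induction l generalizing X with
  | nil => rw [List.nil_append, run, PMF.pure_bind]
  | cons u l ih =>
    rw [List.cons_append, run, run, PMF.bind_bind]
    congr 1
    funext Y
    exact ih Y

theorem A_periods (ns : List ℕ) : A G ns.sum X =
    (periods V ns).bind (fun ls => run G ls.flatten X) := by
  induction ns generalizing X with
  | nil =>
    rw [List.sum_nil, A_zero, periods, PMF.pure_bind, List.flatten_nil, run]
  | cons n ns ih =>
    rw [List.sum_cons, A_add, periods, PMF.bind_bind, A, PMF.bind_bind]
    congr 1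
    funext l
    rw [PMF.bind_map]
    have h1 : ((fun ls : List (List V) => run G ls.flatten X) ∘ fun ls => l :: ls) =
        fun ls => (run G l X).bind (fun Y => run G ls.flatten Y) := by
      funext ls
      show run G (l :: ls).flatten X = _
      rw [List.flatten_cons, run_append]
    rw [h1, PMF.bind_comm]
    congr 1
    funext Y
    exact ih Y

theorem alloc_eq (m : ℕ) : alloc G m = A G m (fun _ => 0) := by
  induction m with
  | zero => rw [A_zero]; rfl
  | succ m ih =>
    rw [A_succ, ← ih]
    rfl

end PA

theorem sA1 : S_A1 := by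
  intro V _ _ G X v
  exact ⟨fun h => PA.place_pos G X v h, fun h => PA.place_neg G X v h⟩

theorem sA2 : S_A2 := by
  intro V _ _ G X v w hw z hz
  exact PA.place_min G X v w hw z hz

theorem sA3 : S_A3 := by
  intro V _ _ G l X Y hY
  exact PA.run_facts G X l Y hY

theorem sA4 : S_A4 := by
  intro V _ _ _ G ns
  rw [PA.alloc_eq, PA.A_periods]

end Pool.Agent.R88.LS
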