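import Pool.Agent.R88.LS.Stm

/-!
# Assembly of project LS
-/

set_option autoImplicit false

namespace Pool.Agent.R88.LS

open scoped ENNReal
open Filter

theorem card_win {N : ℕ} (c : ZMod N) (q : ℕ) (h : 2 * q + 1 ≤ N) : (win c q).card = 2 * q + 1 := by
  unfold win
  rw [Finset.card_image_of_injOn, Int.card_Icc]
  · omega
  · intro s hs t ht hst
    simp only [Finset.coe_Icc, Set.mem_Icc] at hs ht
    simp only [add_right_inj] at hst
    rw [ZMod.intCast_eq_intCast_iff] at hst
    have hd := (Int.ModEq.dvd hst)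
    by_contra hne
    have h1 : (N : ℤ) ≤ |t - s| := Int.le_of_dvd (abs_pos.2 (sub_ne_zero.2 (Ne.symm hne))) ((dvd_abs _ _).2 hd)
    have h2 : |t - s| ≤ 2 * q := by
      rw [abs_le]; constructor <;> linarith [hs.1, hs.2, ht.1, ht.2]
    omega

theorem length_of_mem_periods {V : Type} [Fintype V] [Nonempty V] : ∀ (ns : List ℕ) (ls : List (List V)),
    ls ∈ (periods V ns).support → ls.length = ns.length := by
  intro ns
  induction ns with
  | nil =>
    intro ls h
    simp only [periods, PMF.support_pure, Set.mem_singleton_iff] at h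
    simp [h]
  | cons n ns ih =>
    intro ls h
    simp only [periods, PMF.mem_support_bind_iff, PMF.support_map, Set.mem_image] at h
    obtain ⟨l, _, ls', h', rfl⟩ := h
    simp [ih ls' h']

theorem length_nsOf (N k M : ℕ) : (nsOf N k M).length = M := by
  induction M with
  | zero => rfl
  | succ M ih => simp [nsOf, ih]

theorem pw_pos (k κ : ℕ) (hk : 2 ≤ k) (M : ℕ) : 0 < pw k κ M := by
  induction M with
  | zero => simp [pw]
  | succ M ih =>
    have h1 : 0 < nu k M := by
      unfold nu
      have : k / (2 * (M + 1)) < k := Nat.div_lt_self (by omega) (by omega)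
      omega
    have h2 : (0 : ℝ) < nu k M := by exact_mod_cast h1
    simp only [pw]
    have h3 : (0 : ℝ) < (κ.factorial : ℝ) := by exact_mod_cast κ.factorial_pos
    positivity

theorem pgood (hG : S_G) (hH1 : S_H1) (N k κ M₀ : ℕ) [NeZero N] [NeZero k] (hk : 2 ≤ k) (hκ : 1 ≤ κ)
    (hM₀ : 2 * M₀ ≤ N)
    (h1 : ∀ q < M₀, 2 * ((2 * q + 1) * κ) ^ 2 ≤ N ∧ 4 * (2 * q + 1) ^ 2 * nu k q ≤ N) (c : ZMod N) :
    ∀ M ≤ M₀, ENNReal.ofReal (pw k κ M) ≤
      (periods (ZMod N × Fin k) (nsOf N k M)).toOuterMeasure {ls | Good κ c ls} := by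
  intro M
  induction M with
  | zero =>
    intro _
    have : (periods (ZMod N × Fin k) (nsOf N k 0)).toOuterMeasure {ls | Good κ c ls} = 1 := by
      rw [PMF.toOuterMeasure_apply_eq_one_iff]
      intro ls hls
      simp only [nsOf, periods, PMF.support_pure, Set.mem_singleton_iff] at hls
      subst hls
      simp [Good]
    rw [this]
    simp [pw]
  | succ M ih =>
    intro hM
    have ih' := ih (by omega)
    simp only [nsOf]
    rw [hH1 N k κ c (N * nu k M) (nsOf N k M)]
    rw [length_nsOf]
    have hcard : (win c M).card = 2 * M + 1 := card_win c M (by omega)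
    have hnu : 1 ≤ nu k M := by
      unfold nu
      have : k / (2 * (M + 1)) < k := Nat.div_lt_self (by omega) (by omega)
      omega
    have hq := h1 M (by omega)
    have hg := hG (ZMod N) k (N * nu k M) (nu k M) κ (win c M) (by rw [ZMod.card]) hnu hκ
      (by rw [hcard]; omega) (by rw [hcard, ZMod.card]; exact hq.1)
      (by rw [hcard, ZMod.card]; exact hq.2)
    rw [hcard] at hg
    simp only [pw]
    rw [ENNReal.ofReal_mul (by positivity)]
    exact mul_le_mul' hg ih'

theorem core (hA4 : S_A4) (hD : S_D) (hG : S_G) (hH1 : S_H1) (hH : S_H)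
    (M k J g : ℕ) [NeZero (2 * M * J)] [NeZero k] (hM : 1 ≤ M) (hk : 2 ≤ k) (hJ : 3 ≤ J)
    (h1 : ∀ q < M, 2 * ((2 * q + 1) * (k + g)) ^ 2 ≤ 2 * M * J ∧
      4 * (2 * q + 1) ^ 2 * nu k q ≤ 2 * M * J)
    (h2 : (M : ℝ) ≤ J * pw k (k + g) M)
    (h3 : (M : ℝ) ^ 2 * (2 * (harmonic k : ℝ) / (g + 1)) ≤ 1 / M) :
    (alloc (gr (2 * M * J) k) (nsOf (2 * M * J) k M).sum).toOuterMeasure
      {X | maxLoad X < M} ≤ ENNReal.ofReal (2 / M) := by
  classical
  set N := 2 * M * J with hN
  have hM0 : (0 : ℝ) < M := by exact_mod_cast hM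
  have hN3 : 3 ≤ N := by
    rw [hN]; nlinarith
  have hb := pw_pos k (k + g) hk M
  have hgood : ∀ c : ZMod N, ENNReal.ofReal (pw k (k + g) M) ≤
      (periods (ZMod N × Fin k) (nsOf N k M)).toOuterMeasure {ls | Good (k + g) c ls} := fun c =>
    pgood hG hH1 N k (k + g) M hk (by omega) (by rw [hN]; nlinarith) h1 c M le_rfl
  have hno := hH N k (k + g) M J (nsOf N k M) (pw k (k + g) M) hM (by omega) hN
    (length_nsOf N k M) hb hgood
  rw [hA4, PMF.toOuterMeasure_bind_apply]
  set P := periods (ZMod N × Fin k) (nsOf N k M) with hP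
  set ε : ℝ≥0∞ := (M : ℝ≥0∞) ^ 2 * ENNReal.ofReal (2 * (harmonic k : ℝ) / (g + 1)) with hε
  have hbound : ∀ ls, P ls * (run (gr N k) ls.flatten (fun _ => 0)).toOuterMeasure {X | maxLoad X < M}
      ≤ P ls * ε + Set.indicator {ls | ∀ c : ZMod N, ¬ Good (k + g) c ls} P ls := by
    intro ls
    by_cases hls : ls ∈ P.support
    · have hlen : ls.length = M := by
        rw [length_of_mem_periods _ _ hls, length_nsOf]
      by_cases hg' : ∃ c : ZMod N, Good (k + g) c ls
      · obtain ⟨c, hc⟩ := hg'
        have := hD N k g hN3 c ls (fun _ => 0) 0 (fun _ _ _ => by simp) (fun _ _ _ => by simp) hc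
        rw [hlen, Nat.zero_add] at this
        have hmono : (run (gr N k) ls.flatten (fun _ => 0)).toOuterMeasure {X | maxLoad X < M} ≤
            (run (gr N k) ls.flatten (fun _ => 0)).toOuterMeasure {Y | ∃ a, Y (c, a) < M} := by
          apply MeasureTheory.OuterMeasure.mono
          intro X hX
          refine ⟨⟨0, by omega⟩, ?_⟩
          exact lt_of_le_of_lt (Finset.le_sup (f := X) (Finset.mem_univ _)) hX
        calc _ ≤ P ls * ε := mul_le_mul' le_rfl (hmono.trans this)
          _ ≤ _ := le_self_add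
      · push Not at hg'
        have hind : Set.indicator {ls | ∀ c : ZMod N, ¬ Good (k + g) c ls} P ls = P ls :=
          Set.indicator_of_mem (by exact hg') _
        rw [hind]
        calc _ ≤ P ls * 1 := mul_le_mul' le_rfl (by
                have := (run (gr N k) ls.flatten (fun _ => 0)).toOuterMeasure.mono
                  (Set.subset_univ {X | maxLoad X < M})
                exact this.trans (le_of_eq ((PMF.toOuterMeasure_apply_eq_one_iff _ _).2
                  (Set.subset_univ _))))
          _ = P ls := mul_one _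
          _ ≤ _ := le_add_self
    · have : P ls = 0 := by
        simpa [PMF.mem_support_iff] using hls
      simp [this]
  calc _ ≤ ∑' ls, (P ls * ε + Set.indicator {ls | ∀ c : ZMod N, ¬ Good (k + g) c ls} P ls) :=
        ENNReal.tsum_le_tsum hbound
    _ = (∑' ls, P ls) * ε + P.toOuterMeasure {ls | ∀ c : ZMod N, ¬ Good (k + g) c ls} := by
        rw [ENNReal.tsum_add, ENNReal.tsum_mul_right, PMF.toOuterMeasure_apply]
    _ ≤ 1 * ε + ENNReal.ofReal (1 / (J * pw k (k + g) M)) := by
        rw [PMF.tsum_coe]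
        gcongr
    _ ≤ ENNReal.ofReal (1 / M) + ENNReal.ofReal (1 / M) := by
        apply add_le_add
        · rw [one_mul, hε]
          have : ((M : ℝ≥0∞) ^ 2) = ENNReal.ofReal ((M : ℝ) ^ 2) := by
            rw [ENNReal.ofReal_pow (by positivity), ENNReal.ofReal_natCast]
          rw [this, ← ENNReal.ofReal_mul (by positivity)]
          exact ENNReal.ofReal_le_ofReal h3
        · apply ENNReal.ofReal_le_ofReal
          exact one_div_le_one_div_of_le hM0 h2
    _ = ENNReal.ofReal (2 / M) := by
        rw [← ENNReal.ofReal_add (by positivity) (by positivity)]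
        congr 1
        ring

theorem sum_nsOf (N k : ℕ) : ∀ M, (∀ q < M, 2 * (q + 1) ∣ k) →
    ((nsOf N k M).sum : ℝ) = N * k * (M - (harmonic M : ℝ) / 2) := by
  intro M
  induction M with
  | zero => intro _; simp [nsOf]
  | succ M ih =>
    intro h
    have ih' := ih (fun q hq => h q (by omega))
    have hd := h M (by omega)
    simp only [nsOf, List.sum_cons, Nat.cast_add, Nat.cast_mul]
    rw [ih', harmonic_succ]
    have : ((nu k M : ℕ) : ℝ) = k - k / (2 * (M + 1)) := by
      unfold nu
      rw [Nat.cast_sub (Nat.div_le_self _ _), Nat.cast_div hd (by positivity)]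
      push_cast
      ring
    rw [this]
    push_cast
    field_simp
    ring

end Pool.Agent.R88.LS
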