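import Pool.Agent.R88.LS.Stm

/-!
# Piece D (pyramid induction) of project LS (MP_d24e49_pr)
-/

set_option autoImplicit false

namespace Pool.Agent.R88.LS

open scoped ENNReal

namespace PD

theorem run_append {V : Type} [Fintype V] [DecidableEq V] (G : SimpleGraph V) (l l' : List V)
    (X : V → ℕ) : run G (l ++ l') X = (run G l X).bind (run G l') := by
  induction l generalizing X with
  | nil => simp [run]
  | cons u l ih =>
    rw [List.cons_append]
    show (step G X u).bind (run G (l ++ l')) = ((step G X u).bind (run G l)).bind (run G l')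
    rw [PMF.bind_bind]
    congr 1
    funext Y
    exact ih Y

theorem outer_le_one {α : Type} (p : PMF α) (s : Set α) : p.toOuterMeasure s ≤ 1 := by
  rw [PMF.toOuterMeasure_apply, ← p.tsum_coe]
  exact ENNReal.tsum_le_tsum fun a => Set.indicator_le_self _ _ _

theorem bind_le {α β : Type} (p : PMF α) (f : α → PMF β) (s : Set β) (bad : Set α) (e : ℝ≥0∞)
    (h : ∀ a ∈ p.support, a ∉ bad → (f a).toOuterMeasure s ≤ e) :
    (p.bind f).toOuterMeasure s ≤ p.toOuterMeasure bad + e := by
  classical
  rw [PMF.toOuterMeasure_bind_apply]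
  have h1 : ∀ a, p a * (f a).toOuterMeasure s ≤ bad.indicator p a + p a * e := by
    intro a
    by_cases ha : a ∈ p.support
    · by_cases hb : a ∈ bad
      · rw [Set.indicator_of_mem hb]
        calc p a * (f a).toOuterMeasure s ≤ p a * 1 := by gcongr; exact outer_le_one _ _
          _ = p a := mul_one _
          _ ≤ _ := le_self_add
      · calc p a * (f a).toOuterMeasure s ≤ p a * e := by gcongr; exact h a ha hb
          _ ≤ _ := le_add_self
    · have h0 : p a = 0 := by
        by_contra hne
        exact ha ((p.mem_support_iff a).2 hne)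
      rw [h0, zero_mul]
      exact zero_le
  calc ∑' a, p a * (f a).toOuterMeasure s ≤ ∑' a, (bad.indicator p a + p a * e) :=
        ENNReal.tsum_le_tsum h1
    _ = ∑' a, bad.indicator p a + ∑' a, p a * e := ENNReal.tsum_add
    _ = p.toOuterMeasure bad + e := by
        rw [ENNReal.tsum_mul_right, p.tsum_coe, one_mul, PMF.toOuterMeasure_apply]

end PD

theorem sD (hA3 : S_A3) (hC : S_C) : S_D := by
  classical
  intro N k g _ hN c ls
  induction ls with
  | nil =>
    intro X v _ hX _
    have h0 : X ∉ {Y : ZMod N × Fin k → ℕ | ∃ a, Y (c, a) < v + ([] : List (List (ZMod N × Fin k))).length} := by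
      rintro ⟨a, ha⟩
      have h1 := hX 0 (by simp) a
      rw [Int.cast_zero, add_zero] at h1
      simp only [List.length_nil, add_zero] at ha
      omega
    show (PMF.pure X).toOuterMeasure _ ≤ _
    rw [PMF.toOuterMeasure_pure_apply, if_neg h0]
    exact zero_le
  | cons l ls ih =>
    intro X v hLip hX hgood
    set ε := ENNReal.ofReal (2 * (harmonic k : ℝ) / (g + 1)) with hε
    set q := ls.length with hq
    obtain ⟨hg1, hg2⟩ := hgood
    rw [List.flatten_cons, PD.run_append]
    set bad : Set (ZMod N × Fin k → ℕ) :=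
      ⋃ t ∈ Finset.Icc (-(q : ℤ)) q, {Y | ∃ a, Y (c + (t : ZMod N), a) ≤ v} with hbad
    have hstep : ∀ Y ∈ (run (gr N k) l X).support, Y ∉ bad →
        (run (gr N k) ls.flatten Y).toOuterMeasure
          {Y | ∃ a, Y (c, a) < v + (l :: ls).length} ≤ (q : ℝ≥0∞) ^ 2 * ε := by
      intro Y hY hYb
      have hlip := (hA3 _ (gr N k) l X Y hY).1 hLip
      have h1 : ∀ t : ℤ, |t| ≤ (ls.length : ℤ) → ∀ a, v + 1 ≤ Y (c + (t : ZMod N), a) := by
        intro t ht a
        by_contra hcon
        apply hYb
        rw [hbad]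
        simp only [Set.mem_iUnion]
        refine ⟨t, Finset.mem_Icc.2 (abs_le.1 ht), a, by omega⟩
      have h2 := ih Y (v + 1) hlip h1 hg2
      have h3 : v + (l :: ls).length = v + 1 + ls.length := by
        rw [List.length_cons]; ring
      rw [h3]
      exact h2
    refine (PD.bind_le _ _ _ bad _ hstep).trans ?_
    have hb1 : (run (gr N k) l X).toOuterMeasure bad ≤
        ∑ t ∈ Finset.Icc (-(q : ℤ)) q, (run (gr N k) l X).toOuterMeasure
          {Y | ∃ a, Y (c + (t : ZMod N), a) ≤ v} := by
      rw [hbad]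
      exact MeasureTheory.measure_biUnion_finset_le _ _
    have hb2 : ∀ t ∈ Finset.Icc (-(q : ℤ)) q, (run (gr N k) l X).toOuterMeasure
          {Y | ∃ a, Y (c + (t : ZMod N), a) ≤ v} ≤ ε := by
      intro t ht
      obtain ⟨ht1, ht2⟩ := Finset.mem_Icc.1 ht
      have hlen : ((l :: ls).length : ℤ) = (q : ℤ) + 1 := by
        rw [List.length_cons]; push_cast; rfl
      refine hC N k g hN X (c + (t : ZMod N)) v l hLip ?_ ?_ ?_ ?_
      · intro a
        refine hX t ?_ a
        rw [hlen, abs_le]
        omega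
      · intro a
        have h1 := hX (t + 1) (by rw [hlen, abs_le]; omega) a
        rw [Int.cast_add, Int.cast_one, ← add_assoc] at h1
        exact h1
      · intro a
        have h1 := hX (t - 1) (by rw [hlen, abs_le]; omega) a
        rw [Int.cast_sub, Int.cast_one, ← add_sub_assoc] at h1
        exact h1
      · refine hg1 t ?_
        rw [abs_le]
        exact ⟨ht1, ht2⟩
    have hb3 : (run (gr N k) l X).toOuterMeasure bad ≤ (2 * (q : ℝ≥0∞) + 1) * ε := by
      refine hb1.trans ((Finset.sum_le_sum hb2).trans ?_)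
      rw [Finset.sum_const, nsmul_eq_mul, Int.card_Icc]
      have h1 : ((q : ℤ) + 1 - -(q : ℤ)).toNat = 2 * q + 1 := by omega
      rw [h1]
      push_cast
      exact le_rfl
    calc (run (gr N k) l X).toOuterMeasure bad + (q : ℝ≥0∞) ^ 2 * ε
        ≤ (2 * (q : ℝ≥0∞) + 1) * ε + (q : ℝ≥0∞) ^ 2 * ε := by gcongr
      _ = ((q : ℝ≥0∞) + 1) ^ 2 * ε := by ring
      _ = ((l :: ls).length : ℝ≥0∞) ^ 2 * ε := by
        rw [List.length_cons]; push_cast; rfl

end Pool.Agent.R88.LS
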