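import Pool.Agent.R88.LS.Stm
import Pool.Agent.R88.LS.D

/-!
# Piece B (one ball in a column with holes) of project LS (MP_d24e49_pr)
-/

set_option autoImplicit false

namespace Pool.Agent.R88.LS

open scoped ENNReal

namespace PB

theorem mem_minNbr {V : Type} [Fintype V] (G : SimpleGraph V) (X : V → ℕ) (v w : V) :
    w ∈ minNbr G X v ↔ G.Adj v w ∧ ∀ z, G.Adj v z → X w ≤ X z := by
  unfold minNbr
  simp

theorem le_nbr {N k : ℕ} {X : ZMod N × Fin k → ℕ} {i : ZMod N} {v : ℕ}
    (h0 : ∀ a, v ≤ X (i, a)) (h1 : ∀ a, v ≤ X (i + 1, a)) (h2 : ∀ a, v ≤ X (i - 1, a))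
    {a : Fin k} {w : ZMod N × Fin k} (hw : (gr N k).Adj (i, a) w) : v ≤ X w := by
  obtain ⟨j, b⟩ := w
  rcases hw with ⟨h3, _⟩ | ⟨_, _, h4 | h4⟩
  · have h3 : i = j := h3
    subst h3
    exact h0 b
  · have h4 : j = i + 1 := h4
    subst h4
    exact h1 b
  · have h4 : i = j + 1 := h4
    have h5 : j = i - 1 := by rw [h4]; ring
    subst h5
    exact h2 b

/-- the search stops at a hole -/
theorem place_hole (hA1 : S_A1) {N k : ℕ} [NeZero N] {X : ZMod N × Fin k → ℕ} {i : ZMod N} {v : ℕ}
    (h0 : ∀ a, v ≤ X (i, a)) (h1 : ∀ a, v ≤ X (i + 1, a)) (h2 : ∀ a, v ≤ X (i - 1, a))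
    {a : Fin k} (ha : X (i, a) = v) : place (gr N k) X (i, a) = PMF.pure (i, a) := by
  refine (hA1 _ (gr N k) X (i, a)).2 ?_
  rintro ⟨w, hw, hlt⟩
  have := le_nbr h0 h1 h2 hw
  omega

end PB

open PB in
theorem sB (hA1 : S_A1) : S_B := by
  classical
  intro N k _ hN X i v hLip h0 h1 h2 hcard a
  by_cases ha : X (i, a) = v
  · rw [place_hole hA1 h0 h1 h2 ha, PMF.toOuterMeasure_pure_apply, if_neg]
    · exact zero_le
    · intro h
      exact h ⟨rfl, ha⟩
  · obtain ⟨b, hb⟩ := Finset.card_pos.1 (lt_of_lt_of_le Nat.zero_lt_one hcard)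
    have hbv : X (i, b) = v := (Finset.mem_filter.1 hb).2
    have hab : a ≠ b := by
      rintro rfl
      exact ha hbv
    have hadj : (gr N k).Adj (i, a) (i, b) := Or.inl ⟨rfl, hab⟩
    have hex : ∃ w, (gr N k).Adj (i, a) w ∧ X w < X (i, a) := by
      refine ⟨(i, b), hadj, ?_⟩
      have := h0 a
      omega
    rw [(hA1 _ (gr N k) X (i, a)).1 hex]
    have hmem : ∀ w, w ∈ minNbr (gr N k) X (i, a) ↔ (gr N k).Adj (i, a) w ∧ X w = v := by
      intro w
      rw [mem_minNbr]
      constructor
      · rintro ⟨hw, hmin⟩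
        have h3 := hmin (i, b) hadj
        have h4 := le_nbr h0 h1 h2 hw
        exact ⟨hw, by omega⟩
      · rintro ⟨hw, hwv⟩
        exact ⟨hw, fun z hz => by rw [hwv]; exact le_nbr h0 h1 h2 hz⟩
    refine (PD.bind_le _ _ _ {w | w.1 ≠ i} 0 ?_).trans ?_
    · intro w hw hwi
      have hw' : w ∈ minNbr (gr N k) X (i, a) := by
        rwa [PMF.support_uniformOfFinset, Finset.mem_coe] at hw
      have hwi' : w.1 = i := by
        by_contra hne
        exact hwi hne
      obtain ⟨j, c⟩ := w
      have hwi' : j = i := hwi'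
      subst hwi'
      have hwv := ((hmem _).1 hw').2
      rw [place_hole hA1 h0 h1 h2 hwv, PMF.toOuterMeasure_pure_apply, if_neg]
      intro h
      exact h ⟨rfl, hwv⟩
    · rw [add_zero, PMF.toOuterMeasure_uniformOfFinset_apply]
      set S := minNbr (gr N k) X (i, a) with hS
      set O := S.filter (fun x => x ∈ {w : ZMod N × Fin k | w.1 ≠ i}) with hO
      have hO2 : O.card ≤ 2 := by
        have hsub : O ⊆ {(i + 1, a), (i - 1, a)} := by
          intro w hw
          obtain ⟨hw1, hw2⟩ := Finset.mem_filter.1 hw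
          have hw2 : w.1 ≠ i := hw2
          obtain ⟨hadjw, _⟩ := (hmem w).1 hw1
          obtain ⟨j, c⟩ := w
          rcases hadjw with ⟨h3, _⟩ | ⟨h3, _, h4 | h4⟩
          · exact absurd (Eq.symm h3) hw2
          · have h3 : a = c := h3
            have h4 : j = i + 1 := h4
            subst h3 h4
            simp
          · have h3 : a = c := h3
            have h4 : i = j + 1 := h4
            have h5 : j = i - 1 := by rw [h4]; ring
            subst h3 h5
            simp
        exact (Finset.card_le_card hsub).trans Finset.card_le_two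
      have hsum : (holes X i v).card + O.card ≤ S.card := by
        have hd : Disjoint ((holes X i v).image fun b => ((i, b) : ZMod N × Fin k)) O := by
          rw [Finset.disjoint_left]
          intro w hw hw2
          obtain ⟨c, _, rfl⟩ := Finset.mem_image.1 hw
          exact (Finset.mem_filter.1 hw2).2 rfl
        have hinj : Function.Injective fun b : Fin k => ((i, b) : ZMod N × Fin k) := by
          intro x y hxy
          exact (Prod.mk.inj hxy).2
        rw [← Finset.card_image_of_injective (holes X i v) hinj, ← Finset.card_union_of_disjoint hd]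
        refine Finset.card_le_card (Finset.union_subset ?_ (Finset.filter_subset _ _))
        intro w hw
        obtain ⟨c, hc, rfl⟩ := Finset.mem_image.1 hw
        have hcv : X (i, c) = v := (Finset.mem_filter.1 hc).2
        refine (hmem _).2 ⟨Or.inl ⟨rfl, ?_⟩, hcv⟩
        rintro rfl
        exact ha hcv
      have hS0 : S.card ≠ 0 := by omega
      have key : O.card * ((holes X i v).card + 2) ≤ 2 * S.card := by nlinarith
      have key' : (O.card : ℝ≥0∞) * (((holes X i v).card : ℝ≥0∞) + 2) ≤ 2 * (S.card : ℝ≥0∞) := by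
        exact_mod_cast key
      refine ENNReal.div_le_of_le_mul ?_
      rw [← ENNReal.mul_div_right_comm]
      rw [ENNReal.le_div_iff_mul_le (Or.inl (by simp)) (Or.inl (by
        exact ENNReal.add_ne_top.2 ⟨ENNReal.natCast_ne_top _, by simp⟩))]
      convert key'

end Pool.Agent.R88.LS
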