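import Pool.Agent.R88.LS.Stm

/-! Project LS, piece C: filling one level of a column. -/

set_option autoImplicit false

namespace Pool.Agent.R88.LS

open scoped ENNReal

namespace CAux

theorem mean_le {V : Type} (p : PMF V) (f : V → ℝ≥0∞) (F : Set V) (α D : ℝ≥0∞)
    (hf : ∀ w ∈ p.support, f w ≤ α + D * F.indicator (fun _ => 1) w) :
    ∑' w, p w * f w ≤ α + D * p.toOuterMeasure F := by
  classical
  calc ∑' w, p w * f w ≤ ∑' w, (α * p w + D * F.indicator p w) := by
        refine ENNReal.tsum_le_tsum fun w => ?_
        by_cases hw : w ∈ p.support
        · calc p w * f w ≤ p w * (α + D * F.indicator (fun _ => 1) w) :=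
                mul_le_mul_right (hf w hw) _
            _ = α * p w + D * F.indicator p w := by
                by_cases h : w ∈ F
                · rw [Set.indicator_of_mem h, Set.indicator_of_mem h]
                  ring
                · rw [Set.indicator_of_notMem h, Set.indicator_of_notMem h]
                  ring
        · have h0 : p w = 0 := by
            rw [PMF.mem_support_iff, not_not] at hw
            exact hw
          rw [h0, zero_mul]
          exact zero_le
    _ = α + D * p.toOuterMeasure F := by
        rw [ENNReal.tsum_add, ENNReal.tsum_mul_left, ENNReal.tsum_mul_left, p.tsum_coe, mul_one,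
          PMF.toOuterMeasure_apply]

section

variable {V : Type} [Fintype V] [DecidableEq V]

theorem run_cons (G : SimpleGraph V) (u : V) (l : List V) (X : V → ℕ) (E : Set (V → ℕ)) :
    (run G (u :: l) X).toOuterMeasure E = ∑' w, place G X u w *
      (run G l (Function.update X w (X w + 1))).toOuterMeasure E := by
  rw [run, step, PMF.bind_map, PMF.toOuterMeasure_bind_apply]
  rfl

theorem one_step (hA3 : S_A3) (G : SimpleGraph V) (u w : V) (X : V → ℕ)
    (hw : w ∈ (place G X u).support) : (Lip G X → Lip G (Function.update X w (X w + 1))) ∧
      ∀ z, X z ≤ Function.update X w (X w + 1) z := by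
  refine hA3 V G [u] X _ ?_
  rw [run]
  have h1 : (fun Y => run G [] Y) = PMF.pure := by
    funext Y
    rfl
  have h2 : (run G [] : (V → ℕ) → PMF (V → ℕ)) = PMF.pure := h1
  rw [h2, PMF.bind_pure, step, PMF.support_map]
  exact ⟨w, hw, rfl⟩

end

/-- the potential -/
noncomputable def Phi (g h b : ℕ) : ℝ := (((h + g - b : ℕ) : ℝ) + 2 * (harmonic h : ℝ)) / (g + 1)

theorem harm_mono {a b : ℕ} (h : a ≤ b) : (harmonic a : ℝ) ≤ (harmonic b : ℝ) := by
  have : harmonic a ≤ harmonic b := by
    unfold harmonic
    refine Finset.sum_le_sum_of_subset_of_nonneg (fun i hi => ?_) fun i _ _ => by positivity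
    rw [Finset.mem_range] at hi ⊢
    omega
  exact_mod_cast this

theorem Phi_mono (g b : ℕ) {h h' : ℕ} (hh : h ≤ h') : Phi g h b ≤ Phi g h' b := by
  unfold Phi
  refine div_le_div_of_nonneg_right ?_ (by positivity)
  have h1 := harm_mono hh
  have h2 : ((h + g - b : ℕ) : ℝ) ≤ ((h' + g - b : ℕ) : ℝ) := by
    exact_mod_cast (by omega : h + g - b ≤ h' + g - b)
  linarith

theorem harm_nonneg (h : ℕ) : (0 : ℝ) ≤ harmonic h := by
  have := harm_mono (Nat.zero_le h)
  simpa using this

theorem Phi_nonneg (g h b : ℕ) : 0 ≤ Phi g h b := by
  unfold Phi
  have := harm_nonneg h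
  positivity

theorem Phi_succ (g h b : ℕ) : Phi g (h + 1) (b + 1) = Phi g h b + 2 / ((h + 1) * (g + 1)) := by
  unfold Phi
  have e1 : h + 1 + g - (b + 1) = h + g - b := by omega
  rw [e1, harmonic_succ]
  push_cast
  have : (g : ℝ) + 1 ≠ 0 := by positivity
  have : (h : ℝ) + 1 ≠ 0 := by positivity
  field_simp
  ring

theorem Phi_fail (g h b : ℕ) : Phi g (h + 1) b ≤ Phi g h b + (h + 3) / ((h + 1) * (g + 1)) := by
  have h1 : Phi g (h + 1) b ≤ Phi g (h + 1) (b + 1) + 1 / (g + 1) := by
    unfold Phi
    rw [← add_div]
    refine div_le_div_of_nonneg_right ?_ (by positivity)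
    have h2 : ((h + 1 + g - b : ℕ) : ℝ) ≤ ((h + 1 + g - (b + 1) : ℕ) : ℝ) + 1 := by
      exact_mod_cast (by omega : h + 1 + g - b ≤ h + 1 + g - (b + 1) + 1)
    linarith
  rw [Phi_succ] at h1
  refine h1.trans (le_of_eq ?_)
  have : (g : ℝ) + 1 ≠ 0 := by positivity
  have : (h : ℝ) + 1 ≠ 0 := by positivity
  field_simp
  ring

end CAux

open CAux

theorem sC (_hA2 : S_A2) (hA3 : S_A3) (hB : S_B) : S_C := by
  classical
  intro N k g _ hN X i v l hLip h0 h1 h2 hcnt
  -- the claim with the potential
  have key : ∀ (l : List (ZMod N × Fin k)) (X : ZMod N × Fin k → ℕ), Lip (gr N k) X →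
      (∀ a, v ≤ X (i, a)) → (∀ a, v ≤ X (i + 1, a)) → (∀ a, v ≤ X (i - 1, a)) →
      (run (gr N k) l X).toOuterMeasure {Y | ∃ a, Y (i, a) ≤ v} ≤
        ENNReal.ofReal (Phi g (holes X i v).card (cnt i l)) := by
    intro l
    induction l with
    | nil =>
      intro X _ h0 _ _
      rw [run, PMF.toOuterMeasure_pure_apply]
      split_ifs with hE
      · obtain ⟨a, ha⟩ := hE
        have hpos : 1 ≤ (holes X i v).card := by
          refine Finset.card_pos.2 ⟨a, ?_⟩
          unfold holes
          exact Finset.mem_filter.2 ⟨Finset.mem_univ _, le_antisymm ha (h0 a)⟩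
        rw [← ENNReal.ofReal_one]
        refine ENNReal.ofReal_le_ofReal ?_
        unfold Phi
        rw [le_div_iff₀ (by positivity), one_mul]
        have e1 : (holes X i v).card + g - cnt i ([] : List (ZMod N × Fin k)) =
            (holes X i v).card + g := by
          simp [cnt]
        rw [e1]
        have h3 := harm_nonneg (holes X i v).card
        have h4 : (1 : ℝ) ≤ ((holes X i v).card : ℝ) := by exact_mod_cast hpos
        push_cast
        linarith
      · exact zero_le
    | cons u l ih =>
      intro X hLip h0 h1 h2
      rcases Nat.eq_zero_or_pos (holes X i v).card with hh | hh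
      · -- no hole
        have hz : (run (gr N k) (u :: l) X).toOuterMeasure {Y | ∃ a, Y (i, a) ≤ v} = 0 := by
          rw [PMF.toOuterMeasure_apply_eq_zero_iff, Set.disjoint_left]
          rintro Y hY ⟨a, ha⟩
          have h3 := (hA3 _ (gr N k) (u :: l) X Y hY).2 (i, a)
          have h4 : X (i, a) = v := le_antisymm (h3.trans ha) (h0 a)
          have h5 : a ∈ holes X i v := by
            unfold holes
            exact Finset.mem_filter.2 ⟨Finset.mem_univ _, h4⟩
          rw [Finset.card_eq_zero] at hh
          rw [hh] at h5
          exact absurd h5 (Finset.notMem_empty a)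
        rw [hz]
        exact zero_le
      · obtain ⟨h, hh'⟩ : ∃ h, (holes X i v).card = h + 1 := ⟨_, (Nat.succ_pred_eq_of_pos hh).symm⟩
        have hsub : ∀ w ∈ (place (gr N k) X u).support,
            holes (Function.update X w (X w + 1)) i v ⊆ holes X i v := by
          intro w hw a ha
          unfold holes at ha ⊢
          rw [Finset.mem_filter] at ha ⊢
          have h3 := (one_step hA3 (gr N k) u w X hw).2 (i, a)
          exact ⟨ha.1, le_antisymm (h3.trans ha.2.le) (h0 a)⟩
        have hnext : ∀ w ∈ (place (gr N k) X u).support,
            (run (gr N k) l (Function.update X w (X w + 1))).toOuterMeasure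
              {Y | ∃ a, Y (i, a) ≤ v} ≤
            ENNReal.ofReal (Phi g (holes (Function.update X w (X w + 1)) i v).card (cnt i l)) := by
          intro w hw
          have h3 := one_step hA3 (gr N k) u w X hw
          exact ih _ (h3.1 hLip) (fun a => (h0 a).trans (h3.2 _)) (fun a => (h1 a).trans (h3.2 _))
            (fun a => (h2 a).trans (h3.2 _))
        rw [run_cons]
        obtain ⟨c, a⟩ := u
        by_cases hc : c = i
        · subst hc
          have hcnt' : cnt c ((c, a) :: l) = cnt c l + 1 := by
            unfold cnt
            rw [List.countP_cons]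
            simp
          rw [hcnt', hh', Phi_succ]
          have hm := mean_le (place (gr N k) X (c, a))
            (fun w => (run (gr N k) l (Function.update X w (X w + 1))).toOuterMeasure
              {Y | ∃ a, Y (c, a) ≤ v}) {w | ¬ (w.1 = c ∧ X w = v)}
            (ENNReal.ofReal (Phi g h (cnt c l)))
            (ENNReal.ofReal ((h + 3) / ((h + 1) * (g + 1)))) (by
              intro w hw
              refine (hnext w hw).trans ?_
              by_cases hs : w.1 = c ∧ X w = v
              · have hnot : w ∉ {w : ZMod N × Fin k | ¬ (w.1 = c ∧ X w = v)} := by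
                  simp only [Set.mem_ofPred_eq, not_not]
                  exact hs
                rw [Set.indicator_of_notMem hnot, mul_zero, add_zero]
                refine ENNReal.ofReal_le_ofReal (Phi_mono g _ ?_)
                have hmem : w.2 ∈ holes X c v := by
                  unfold holes
                  refine Finset.mem_filter.2 ⟨Finset.mem_univ _, ?_⟩
                  rw [← hs.1]
                  exact hs.2
                have hnm : w.2 ∉ holes (Function.update X w (X w + 1)) c v := by
                  unfold holes
                  rw [Finset.mem_filter, not_and]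
                  intro _
                  have e1 : ((c, w.2) : ZMod N × Fin k) = w := by
                    rw [← hs.1]
                  rw [e1, Function.update_self]
                  omega
                have hss : holes (Function.update X w (X w + 1)) c v ⊆ (holes X c v).erase w.2 := by
                  intro b hb
                  refine Finset.mem_erase.2 ⟨?_, hsub w hw hb⟩
                  rintro rfl
                  exact hnm hb
                have h3 := Finset.card_le_card hss
                rw [Finset.card_erase_of_mem hmem, hh'] at h3
                omega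
              · have hin : w ∈ {w : ZMod N × Fin k | ¬ (w.1 = c ∧ X w = v)} := hs
                rw [Set.indicator_of_mem hin, mul_one, ← ENNReal.ofReal_add (Phi_nonneg _ _ _)
                  (by positivity)]
                refine ENNReal.ofReal_le_ofReal (le_trans (Phi_mono g _ ?_) (Phi_fail g h _))
                have h3 := Finset.card_le_card (hsub w hw)
                rw [hh'] at h3
                exact h3)
          refine hm.trans ?_
          have hBB := hB N k hN X c v hLip h0 h1 h2 hh a
          rw [hh'] at hBB
          have e2 : (2 : ℝ≥0∞) / (((h + 1 : ℕ) : ℝ≥0∞) + 2) = ENNReal.ofReal (2 / (h + 3)) := by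
            rw [ENNReal.ofReal_div_of_pos (by positivity)]
            congr 1
            · norm_num
            · have e3 : (h : ℝ) + 3 = ((h + 3 : ℕ) : ℝ) := by push_cast; ring
              rw [e3, ENNReal.ofReal_natCast]
              push_cast
              ring
          rw [e2] at hBB
          calc ENNReal.ofReal (Phi g h (cnt c l)) +
                ENNReal.ofReal ((h + 3) / ((h + 1) * (g + 1))) *
                  (place (gr N k) X (c, a)).toOuterMeasure {w | ¬ (w.1 = c ∧ X w = v)}
              ≤ ENNReal.ofReal (Phi g h (cnt c l)) +
                ENNReal.ofReal ((h + 3) / ((h + 1) * (g + 1))) * ENNReal.ofReal (2 / (h + 3)) := by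
                gcongr
            _ = ENNReal.ofReal (Phi g h (cnt c l) + 2 / ((h + 1) * (g + 1))) := by
                rw [← ENNReal.ofReal_mul (by positivity),
                  ENNReal.ofReal_add (Phi_nonneg _ _ _) (by positivity)]
                congr 2
                have : (g : ℝ) + 1 ≠ 0 := by positivity
                have : (h : ℝ) + 1 ≠ 0 := by positivity
                have : (h : ℝ) + 3 ≠ 0 := by positivity
                field_simp
        · have hcnt' : cnt i ((c, a) :: l) = cnt i l := by
            unfold cnt
            rw [List.countP_cons]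
            simp [hc]
          rw [hcnt']
          have hm := mean_le (place (gr N k) X (c, a))
            (fun w => (run (gr N k) l (Function.update X w (X w + 1))).toOuterMeasure
              {Y | ∃ a, Y (i, a) ≤ v}) ∅
            (ENNReal.ofReal (Phi g (holes X i v).card (cnt i l))) 0 (by
              intro w hw
              refine (hnext w hw).trans ?_
              rw [zero_mul, add_zero]
              exact ENNReal.ofReal_le_ofReal (Phi_mono g _ (Finset.card_le_card (hsub w hw))))
          rw [zero_mul, add_zero] at hm
          exact hm
  refine (key l X hLip h0 h1 h2).trans (ENNReal.ofReal_le_ofReal ?_)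
  have hk : (holes X i v).card ≤ k := by
    have := Finset.card_le_univ (holes X i v)
    rwa [Fintype.card_fin] at this
  unfold Phi
  refine div_le_div_of_nonneg_right ?_ (by positivity)
  have e1 : (holes X i v).card + g - cnt i l = 0 := by omega
  rw [e1]
  have := harm_mono hk
  push_cast
  linarith

end Pool.Agent.R88.LS
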