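import Mathlib

/-!
# Local search allocation: definitions (project LS, MP_d24e49_pr)
-/

set_option autoImplicit false

namespace Pool.Agent.R88.LS

open scoped ENNReal

section Process

variable {V : Type} [Fintype V] [DecidableEq V]

open Classical in
/-- The neighbours of `v` whose load is minimum among the neighbours of `v`. -/
noncomputable def minNbr (G : SimpleGraph V) (X : V → ℕ) (v : V) : Finset V :=
  Finset.univ.filter (fun w => G.Adj v w ∧ ∀ z, G.Adj v z → X w ≤ X z)

omit [DecidableEq V] in
theorem minNbr_nonempty (G : SimpleGraph V) (X : V → ℕ) (v : V) (h : ∃ w, G.Adj v w) :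
    (minNbr G X v).Nonempty := by
  classical
  obtain ⟨w, hw⟩ := h
  have hne : (Finset.univ.filter (fun w => G.Adj v w)).Nonempty :=
    ⟨w, Finset.mem_filter.2 ⟨Finset.mem_univ _, hw⟩⟩
  obtain ⟨x, hx, hmin⟩ := Finset.exists_min_image _ X hne
  refine ⟨x, ?_⟩
  unfold minNbr
  refine Finset.mem_filter.2 ⟨Finset.mem_univ _, (Finset.mem_filter.1 hx).2, fun z hz => ?_⟩
  exact hmin z (Finset.mem_filter.2 ⟨Finset.mem_univ _, hz⟩)

open Classical in
/-- Local search with at most `t` moves: if the current vertex `v` has a neighbour of strictly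
smaller load, move to a uniformly random neighbour of minimum load and repeat; otherwise stop. -/
noncomputable def placeAux (G : SimpleGraph V) (X : V → ℕ) : ℕ → V → PMF V
  | 0, v => PMF.pure v
  | t + 1, v =>
    if h : ∃ w, G.Adj v w ∧ X w < X v then
      (PMF.uniformOfFinset (minNbr G X v)
        (minNbr_nonempty G X v ⟨h.choose, h.choose_spec.1⟩)).bind (placeAux G X t)
    else PMF.pure v

/-- The law of the final vertex of the local search started at `v`, loads `X`. Each move lowers
the load of the current vertex, so at most `X v` moves are made (see `place_eq`). -/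
noncomputable def place (G : SimpleGraph V) (X : V → ℕ) (v : V) : PMF V :=
  placeAux G X (X v) v

/-- One ball born at `u` is allocated. -/
noncomputable def step (G : SimpleGraph V) (X : V → ℕ) (u : V) : PMF (V → ℕ) :=
  (place G X u).map (fun w => Function.update X w (X w + 1))

/-- The law of the load vector after `m` balls with independent uniform birthplaces. -/
noncomputable def alloc (G : SimpleGraph V) [Nonempty V] : ℕ → PMF (V → ℕ)
  | 0 => PMF.pure (fun _ => 0)
  | m + 1 => (alloc G m).bind fun X => (PMF.uniformOfFintype V).bind fun u => step G X u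

/-- The maximum load. -/
def maxLoad (X : V → ℕ) : ℕ := Finset.univ.sup X

open Classical in
/-- The ball of radius `r` around `u`. -/
noncomputable def ball (G : SimpleGraph V) (u : V) (r : ℕ) : Finset V :=
  Finset.univ.filter (fun v => G.dist u v ≤ r)

/-- `R₂(G) = min {r : r |B_u^r| ≥ log n for all u}`. -/
noncomputable def R2 (G : SimpleGraph V) : ℕ :=
  sInf {r : ℕ | ∀ u : V, Real.log (Fintype.card V) ≤ (r : ℝ) * ((ball G u r).card : ℝ)}

/-- Vertex transitivity. -/
def VTrans (G : SimpleGraph V) : Prop := ∀ u v : V, ∃ φ : G ≃g G, φ u = v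

/-- Balls born at the successive vertices of a list (birthplaces fixed, ties random). -/
noncomputable def run (G : SimpleGraph V) : List V → (V → ℕ) → PMF (V → ℕ)
  | [], X => PMF.pure X
  | u :: l, X => (step G X u).bind (run G l)

/-- `n` independent uniform vertices. -/
noncomputable def iid (V : Type) [Fintype V] [Nonempty V] : ℕ → PMF (List V)
  | 0 => PMF.pure []
  | n + 1 => (PMF.uniformOfFintype V).bind fun u => (iid V n).map (fun l => u :: l)

/-- Birthplaces grouped in periods of lengths `ns`. -/
noncomputable def periods (V : Type) [Fintype V] [Nonempty V] : List ℕ → PMF (List (List V))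
  | [] => PMF.pure []
  | n :: ns => (iid V n).bind fun l => (periods V ns).map (fun ls => l :: ls)

/-- adjacent loads differ by at most one -/
def Lip (G : SimpleGraph V) (X : V → ℕ) : Prop := ∀ u v, G.Adj u v → X u ≤ X v + 1

end Process

/-- number of births in column `i` -/
def cnt {C : Type} [DecidableEq C] {k : ℕ} (i : C) (l : List (C × Fin k)) : ℕ :=
  l.countP (fun p => p.1 = i)

/-- The graph `C_N □ K_k`. -/
def gr (N k : ℕ) : SimpleGraph (ZMod N × Fin k) where
  Adj p q := (p.1 = q.1 ∧ p.2 ≠ q.2) ∨
    (p.2 = q.2 ∧ p.1 ≠ q.1 ∧ (q.1 = p.1 + 1 ∨ p.1 = q.1 + 1))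
  symm := ⟨by
    rintro p q (⟨h1, h2⟩ | ⟨h1, h2, h3⟩)
    · exact Or.inl ⟨h1.symm, h2.symm⟩
    · exact Or.inr ⟨h1.symm, h2.symm, h3.symm⟩⟩
  loopless := ⟨by
    rintro p (⟨_, h2⟩ | ⟨_, h2, _⟩)
    · exact h2 rfl
    · exact h2 rfl⟩

/-- the holes (vertices of load exactly `v`) of column `i` -/
def holes {N k : ℕ} (X : ZMod N × Fin k → ℕ) (i : ZMod N) (v : ℕ) : Finset (Fin k) :=
  Finset.univ.filter (fun a => X (i, a) = v)

/-- The birth pattern `ls` is good for the window centred at `c`: in the period with `q`
periods after it, each of the columns `c - q, ..., c + q` receives at least `κ` births. -/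
def Good {N k : ℕ} (κ : ℕ) (c : ZMod N) : List (List (ZMod N × Fin k)) → Prop
  | [] => True
  | l :: ls => (∀ t : ℤ, |t| ≤ (ls.length : ℤ) → κ ≤ cnt (c + (t : ZMod N)) l) ∧ Good κ c ls

/-- the window of columns `c - q, ..., c + q` -/
noncomputable def win {N : ℕ} (c : ZMod N) (q : ℕ) : Finset (ZMod N) :=
  (Finset.Icc (-(q : ℤ)) q).image (fun t : ℤ => c + (t : ZMod N))

/-- probability that each column of `U` receives at least `t i` of `n` births -/
noncomputable def thr (C : Type) [Fintype C] [DecidableEq C] [Nonempty C] (k : ℕ) [NeZero k]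
    (n : ℕ) (U : Finset C) (t : C → ℕ) : ℝ≥0∞ :=
  (iid (C × Fin k) n).toOuterMeasure {l | ∀ i ∈ U, t i ≤ cnt i l}

/-- balls per column in the period with `q` periods after it -/
def nu (k q : ℕ) : ℕ := k - k / (2 * (q + 1))

/-- numbers of balls of the periods, first period first -/
def nsOf (N k : ℕ) : ℕ → List ℕ
  | 0 => []
  | M + 1 => (N * nu k M) :: nsOf N k M

end Pool.Agent.R88.LS
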