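import Pool.Agent.R88.LS.Stm

/-! Project LS, piece F: negative correlation of threshold events. -/

set_option autoImplicit false

namespace Pool.Agent.R88.LS

open scoped ENNReal

namespace IidAux

theorem iid_succ (V : Type) [Fintype V] [Nonempty V] (n : ℕ) (S : Set (List V)) :
    (iid V (n + 1)).toOuterMeasure S =
      ∑ u : V, (Fintype.card V : ℝ≥0∞)⁻¹ * (iid V n).toOuterMeasure {l | u :: l ∈ S} := by
  rw [iid, PMF.toOuterMeasure_bind_apply, tsum_fintype]
  refine Finset.sum_congr rfl fun u _ => ?_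
  rw [PMF.uniformOfFintype_apply, PMF.toOuterMeasure_map_apply]
  rfl

theorem iid_col (C : Type) [Fintype C] [Nonempty C] (k : ℕ) [NeZero k] (n : ℕ)
    (S : Set (List (C × Fin k))) (f : C → ℝ≥0∞)
    (h : ∀ x a, (iid (C × Fin k) n).toOuterMeasure {l | (x, a) :: l ∈ S} = f x) :
    (iid (C × Fin k) (n + 1)).toOuterMeasure S = ∑ x : C, (Fintype.card C : ℝ≥0∞)⁻¹ * f x := by
  rw [iid_succ, Fintype.sum_prod_type]
  refine Finset.sum_congr rfl fun x _ => ?_
  simp only [h]
  rw [Finset.sum_const, Finset.card_univ, Fintype.card_fin, Fintype.card_prod, Fintype.card_fin,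
    nsmul_eq_mul]
  have hk0 : (k : ℝ≥0∞) ≠ 0 := by
    exact_mod_cast NeZero.ne k
  have hk1 : (k : ℝ≥0∞) ≠ ∞ := ENNReal.natCast_ne_top k
  rw [Nat.cast_mul, ENNReal.mul_inv (Or.inr hk1) (Or.inr hk0)]
  rw [← mul_assoc, mul_comm (k : ℝ≥0∞), mul_assoc _ _ (k : ℝ≥0∞), ENNReal.inv_mul_cancel hk0 hk1,
    mul_one]

theorem sum_inv (C : Type) [Fintype C] [Nonempty C] :
    ∑ _x : C, (Fintype.card C : ℝ≥0∞)⁻¹ = 1 := by
  rw [Finset.sum_const, Finset.card_univ, nsmul_eq_mul]
  refine ENNReal.mul_inv_cancel ?_ (ENNReal.natCast_ne_top _)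
  exact_mod_cast Fintype.card_ne_zero

/-- lower the count of `x` by one -/
def dec {C : Type} [DecidableEq C] (t : C → ℕ) (x : C) : C → ℕ :=
  fun i => if i = x then t i - 1 else t i

theorem cnt_cons {C : Type} [DecidableEq C] {k : ℕ} (i x : C) (a : Fin k)
    (l : List (C × Fin k)) : cnt i ((x, a) :: l) = cnt i l + if i = x then 1 else 0 := by
  unfold cnt
  rw [List.countP_cons]
  congr 1
  by_cases h : i = x
  · simp [h]
  · have h' : ¬ x = i := fun e => h e.symm
    simp [h, h']

theorem thr_zero (C : Type) [Fintype C] [DecidableEq C] [Nonempty C] (k : ℕ) [NeZero k]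
    (U : Finset C) (t : C → ℕ) :
    thr C k 0 U t = if ∀ i ∈ U, t i = 0 then 1 else 0 := by
  classical
  unfold thr iid
  rw [PMF.toOuterMeasure_pure_apply]
  simp only [Set.mem_ofPred_eq, cnt, List.countP_nil, Nat.le_zero]

theorem thr_succ (C : Type) [Fintype C] [DecidableEq C] [Nonempty C] (k : ℕ) [NeZero k]
    (n : ℕ) (U : Finset C) (t : C → ℕ) :
    thr C k (n + 1) U t = ∑ x : C, (Fintype.card C : ℝ≥0∞)⁻¹ * thr C k n U (dec t x) := by
  refine iid_col C k n _ _ fun x a => ?_
  unfold thr
  congr 1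
  ext l
  simp only [Set.mem_ofPred_eq]
  refine forall_congr' fun i => forall_congr' fun _ => ?_
  rw [cnt_cons]
  unfold dec
  split_ifs <;> omega

theorem thr_mono (C : Type) [Fintype C] [DecidableEq C] [Nonempty C] (k : ℕ) [NeZero k]
    (n : ℕ) (U : Finset C) (t t' : C → ℕ) (h : ∀ i ∈ U, t' i ≤ t i) :
    thr C k n U t ≤ thr C k n U t' := by
  unfold thr
  refine (iid (C × Fin k) n).toOuterMeasure.mono fun l hl i hi => ?_
  exact (h i hi).trans (hl i hi)

theorem thr_congr (C : Type) [Fintype C] [DecidableEq C] [Nonempty C] (k : ℕ) [NeZero k]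
    (n : ℕ) (U : Finset C) (t t' : C → ℕ) (h : ∀ i ∈ U, t' i = t i) :
    thr C k n U t = thr C k n U t' :=
  le_antisymm (thr_mono C k n U t t' fun i hi => (h i hi).le)
    (thr_mono C k n U t' t fun i hi => (h i hi).ge)

theorem alg {C : Type} [Fintype C] (w : ℝ≥0∞) (hw : ∑ _x : C, w = 1) (a b : ℝ≥0∞)
    (α β : C → ℝ≥0∞) (h : ∀ x, α x = 0 ∨ β x = 0) :
    ∑ x, w * ((a + α x) * (b + β x)) ≤ (∑ x, w * (a + α x)) * (∑ x, w * (b + β x)) := by
  have e1 : ∀ x, w * ((a + α x) * (b + β x)) = w * (a * b) + a * (w * β x) + b * (w * α x) := by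
    intro x
    rcases h x with h | h
    · rw [h]
      ring
    · rw [h]
      ring
  have e2 : ∑ x, w * (a + α x) = a + ∑ x, w * α x := by
    simp only [mul_add, Finset.sum_add_distrib]
    rw [← Finset.sum_mul, hw, one_mul]
  have e3 : ∑ x, w * (b + β x) = b + ∑ x, w * β x := by
    simp only [mul_add, Finset.sum_add_distrib]
    rw [← Finset.sum_mul, hw, one_mul]
  have e4 : ∑ x, w * ((a + α x) * (b + β x)) =
      a * b + a * (∑ x, w * β x) + b * ∑ x, w * α x := by
    rw [Finset.sum_congr rfl fun x _ => e1 x, Finset.sum_add_distrib,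
      Finset.sum_add_distrib, ← Finset.sum_mul, hw, one_mul, Finset.mul_sum _ _ a, Finset.mul_sum _ _ b]
  rw [e2, e3, e4]
  have e5 : (a + ∑ x, w * α x) * (b + ∑ x, w * β x) =
      a * b + a * (∑ x, w * β x) + b * (∑ x, w * α x) + (∑ x, w * α x) * ∑ x, w * β x := by
    ring
  rw [e5]
  exact le_self_add

end IidAux

open IidAux

theorem sF : S_F := by
  intro C _ _ _ k _ n
  induction n with
  | zero =>
    intro U U' t _
    rw [thr_zero, thr_zero, thr_zero]
    by_cases h1 : ∀ i ∈ U, t i = 0
    · by_cases h2 : ∀ i ∈ U', t i = 0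
      · have h3 : ∀ i ∈ U ∪ U', t i = 0 := by
          intro i hi
          rcases Finset.mem_union.1 hi with h | h
          · exact h1 i h
          · exact h2 i h
        rw [if_pos h1, if_pos h2, if_pos h3, one_mul]
      · have h3 : ¬ ∀ i ∈ U ∪ U', t i = 0 := fun h =>
          h2 fun i hi => h i (Finset.mem_union_right _ hi)
        rw [if_neg h3]
        exact zero_le
    · have h3 : ¬ ∀ i ∈ U ∪ U', t i = 0 := fun h =>
        h1 fun i hi => h i (Finset.mem_union_left _ hi)
      rw [if_neg h3]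
      exact zero_le
  | succ n ih =>
    intro U U' t hd
    rw [thr_succ, thr_succ, thr_succ]
    set a := thr C k n U t with ha
    set b := thr C k n U' t with hb
    have hdec : ∀ x i, dec t x i ≤ t i := by
      intro x i
      unfold dec
      split_ifs <;> omega
    have hax : ∀ x, a ≤ thr C k n U (dec t x) := fun x =>
      thr_mono C k n U t _ fun i _ => hdec x i
    have hbx : ∀ x, b ≤ thr C k n U' (dec t x) := fun x =>
      thr_mono C k n U' t _ fun i _ => hdec x i
    have hout : ∀ (W : Finset C) x, x ∉ W → thr C k n W (dec t x) = thr C k n W t := by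
      intro W x hx
      refine thr_congr C k n W _ _ fun i hi => ?_
      unfold dec
      rw [if_neg]
      rintro rfl
      exact hx hi
    have h1 := alg (C := C) (Fintype.card C : ℝ≥0∞)⁻¹ (sum_inv C) a b
      (fun x => thr C k n U (dec t x) - a) (fun x => thr C k n U' (dec t x) - b) (fun x => by
        by_cases hx : x ∈ U
        · right
          rw [hout U' x (Finset.disjoint_left.1 hd hx)]
          exact tsub_self _
        · left
          rw [hout U x hx]
          exact tsub_self _)
    simp only [add_tsub_cancel_of_le (hax _), add_tsub_cancel_of_le (hbx _)] at h1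
    refine le_trans (Finset.sum_le_sum fun x _ => ?_) h1
    exact mul_le_mul_right (ih U U' (dec t x) hd) _

end Pool.Agent.R88.LS
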