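import Pool.Agent.R88.LS.Asm

/-!
# Assembly of project LS, asymptotic part
-/

set_option autoImplicit false

namespace Pool.Agent.R88.LS

open scoped ENNReal
open Filter

theorem harmonic_le_self (M : ℕ) : (harmonic M : ℝ) ≤ M := by
  induction M with
  | zero => simp
  | succ M ih =>
    rw [harmonic_succ]
    push_cast
    have : ((M : ℝ) + 1)⁻¹ ≤ 1 := inv_le_one_of_one_le₀ (by linarith [Nat.cast_nonneg (α := ℝ) M])
    linarith

theorem harmonic_ge_one (M : ℕ) (h : 1 ≤ M) : 1 ≤ (harmonic M : ℝ) := by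
  induction M, h using Nat.le_induction with
  | base => simp
  | succ M _ ih =>
    rw [harmonic_succ]
    push_cast
    have : 0 ≤ ((M : ℝ) + 1)⁻¹ := by positivity
    linarith

theorem tendsto_harmonic : Tendsto (fun j : ℕ => (harmonic (j + 1) : ℝ)) atTop atTop := by
  have h1 : Tendsto (fun j : ℕ => Real.log ((j : ℝ) + 1 + 1)) atTop atTop := by
    apply Real.tendsto_log_atTop.comp
    exact tendsto_atTop_add_const_right _ _ (tendsto_atTop_add_const_right _ _ tendsto_natCast_atTop_atTop)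
  refine tendsto_atTop_mono (fun j => ?_) h1
  have := log_add_one_le_harmonic (j + 1)
  push_cast at this ⊢
  exact this

theorem R2_low (hI3 : S_I3) (M k J : ℕ) [NeZero (2 * M * J)] (hN : 3 ≤ 2 * M * J) (hk : 2 ≤ k)
    (h : 5 * k * (harmonic M : ℝ) ≤ Real.log ((2 * M * J : ℕ) * k)) :
    5 * (harmonic M : ℝ) ≤ 3 * (R2 (gr (2 * M * J) k) : ℝ) ^ 2 := by
  have h3 := hI3 (2 * M * J) k hN hk
  have hk0 : (0 : ℝ) < k := by positivity
  have h4 : 5 * (harmonic M : ℝ) ≤ (R2 (gr (2 * M * J) k) : ℝ) * (2 * R2 (gr (2 * M * J) k) + 1) := by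
    have : k * (5 * (harmonic M : ℝ)) ≤
        k * ((R2 (gr (2 * M * J) k) : ℝ) * (2 * R2 (gr (2 * M * J) k) + 1)) := by
      nlinarith [h, h3]
    exact le_of_mul_le_mul_left this hk0
  have h5 : ((R2 (gr (2 * M * J) k) : ℕ) : ℝ) ≤ (R2 (gr (2 * M * J) k) : ℝ) ^ 2 := by
    exact_mod_cast Nat.le_self_pow (by norm_num) _
  nlinarith

theorem R2_up (hI2 : S_I2) (M k J : ℕ) [NeZero (2 * M * J)] (hM : 1 ≤ M) (hN : 20 * M ≤ 2 * M * J)
    (hk : 2 ≤ k)
    (h : Real.log ((2 * M * J : ℕ) * k) ≤ 6 * k * (harmonic M : ℝ)) :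
    (R2 (gr (2 * M * J) k) : ℝ) ≤ Real.sqrt (6 * (harmonic M : ℝ)) + 1 := by
  have hH1 := harmonic_ge_one M hM
  have hHM := harmonic_le_self M
  have hM1 : (1 : ℝ) ≤ M := by exact_mod_cast hM
  have hk0 : (0 : ℝ) < k := by positivity
  set s := Real.sqrt (6 * (harmonic M : ℝ)) with hs
  have hs0 : 0 < s := Real.sqrt_pos.2 (by positivity)
  have hs2 : s ^ 2 = 6 * (harmonic M : ℝ) := Real.sq_sqrt (by positivity)
  have hs3 : s ≤ 3 * M := by
    rw [hs, Real.sqrt_le_left (by positivity)]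
    nlinarith
  set r := ⌈s⌉₊ with hr
  have hr1 : s ≤ r := Nat.le_ceil s
  have hr2 : (r : ℝ) < s + 1 := Nat.ceil_lt_add_one hs0.le
  have hr3 : 1 ≤ r := Nat.ceil_pos.2 hs0
  have hr4 : r ≤ 4 * M := by
    have : (r : ℝ) < 4 * M + 1 := by linarith
    have h' : r < 4 * M + 1 := by exact_mod_cast this
    omega
  have hr5 : (1 : ℝ) ≤ r := by exact_mod_cast hr3
  have := hI2 (2 * M * J) k r (by omega) hk hr3 (by omega) (by
    refine h.trans ?_
    have h1 : 6 * (harmonic M : ℝ) ≤ (r : ℝ) * (2 * r - 1) := by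
      nlinarith
    nlinarith)
  have h2 : (R2 (gr (2 * M * J) k) : ℝ) ≤ r := by exact_mod_cast this
  linarith

theorem final (hA4 : S_A4) (hD : S_D) (hG : S_G) (hH1 : S_H1) (hH : S_H) (hI1 : S_I1)
    (hI2 : S_I2) (hI3 : S_I3) (hK : S_K) :
    ∃ (V : ℕ → Type) (_ : ∀ j, Fintype (V j)) (_ : ∀ j, DecidableEq (V j))
      (_ : ∀ j, Nonempty (V j)) (G : ∀ j, SimpleGraph (V j)) (m : ℕ → ℕ),
      (∀ j, (G j).Connected) ∧ (∀ j, VTrans (G j)) ∧
      Tendsto (fun j => Fintype.card (V j)) atTop atTop ∧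
      Tendsto (fun j => R2 (G j)) atTop atTop ∧
      Tendsto (fun j => (m j : ℝ) / ((Fintype.card (V j) : ℝ) * (R2 (G j) : ℝ))) atTop atTop ∧
      Tendsto (fun j => (alloc (G j) (m j)).toOuterMeasure
        {X | (maxLoad X : ℝ) < (m j : ℝ) / Fintype.card (V j) + (R2 (G j) : ℝ) ^ 2 / 26})
        atTop (nhds 0) ∧
      ∀ c C : ℝ, Tendsto (fun j => (alloc (G j) (m j)).toOuterMeasure
        {X | (m j : ℝ) / Fintype.card (V j) + c * (R2 (G j) : ℝ) ≤ (maxLoad X : ℝ) ∧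
          (maxLoad X : ℝ) ≤ (m j : ℝ) / Fintype.card (V j) + C * (R2 (G j) : ℝ)})
        atTop (nhds 0) := by
  have hK' := fun j : ℕ => hK (j + 1) (by omega)
  choose kk JJ gg h1 h2 h3 h4 h5 h6 h7 h8 h9 h10 using hK'
  set N : ℕ → ℕ := fun j => 2 * (j + 1) * JJ j with hNdef
  have hN0 : ∀ j, NeZero (2 * (j + 1) * JJ j) := fun j => ⟨by
    have := h2 j
    positivity⟩
  have hk0 : ∀ j, NeZero (kk j) := fun j => ⟨by have := h1 j; omega⟩
  have hN3 : ∀ j, 3 ≤ 2 * (j + 1) * JJ j := fun j => by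
    have := h2 j
    nlinarith
  have hcore : ∀ j, (alloc (gr (2 * (j + 1) * JJ j) (kk j))
      (nsOf (2 * (j + 1) * JJ j) (kk j) (j + 1)).sum).toOuterMeasure
      {X | maxLoad X < j + 1} ≤ ENNReal.ofReal (2 / ((j + 1 : ℕ) : ℝ)) := fun j =>
    core hA4 hD hG hH1 hH (j + 1) (kk j) (JJ j) (gg j) (by omega) (h1 j) (h2 j) (h5 j) (h6 j) (h7 j)
  have hcard : ∀ j, (Fintype.card (ZMod (2 * (j + 1) * JJ j) × Fin (kk j)) : ℝ) =
      ((2 * (j + 1) * JJ j : ℕ) : ℝ) * (kk j : ℝ) := fun j => by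
    rw [Fintype.card_prod, ZMod.card, Fintype.card_fin, Nat.cast_mul]
  have hlow : ∀ j, 5 * (harmonic (j + 1) : ℝ) ≤ 3 * (R2 (gr (2 * (j + 1) * JJ j) (kk j)) : ℝ) ^ 2 :=
    fun j => R2_low hI3 (j + 1) (kk j) (JJ j) (hN3 j) (h1 j) (h8 j)
  have hup : ∀ j, (R2 (gr (2 * (j + 1) * JJ j) (kk j)) : ℝ) ≤
      Real.sqrt (6 * (harmonic (j + 1) : ℝ)) + 1 :=
    fun j => R2_up hI2 (j + 1) (kk j) (JJ j) (by omega) (h10 j) (h1 j) (h9 j)
  have hmn : ∀ j, ((nsOf (2 * (j + 1) * JJ j) (kk j) (j + 1)).sum : ℝ) /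
      (Fintype.card (ZMod (2 * (j + 1) * JJ j) × Fin (kk j)) : ℝ) =
      ((j + 1 : ℕ) : ℝ) - (harmonic (j + 1) : ℝ) / 2 := fun j => by
    rw [hcard, sum_nsOf _ _ _ (h4 j)]
    have hN1 : (0 : ℝ) < ((2 * (j + 1) * JJ j : ℕ) : ℝ) := by
      exact_mod_cast (by have := hN3 j; omega : 0 < 2 * (j + 1) * JJ j)
    have hk1 : (0 : ℝ) < (kk j : ℝ) := by exact_mod_cast (by have := h1 j; omega : 0 < kk j)
    field_simp
  -- R2 tends to infinity (real valued)
  have hR2sq : Tendsto (fun j => (R2 (gr (2 * (j + 1) * JJ j) (kk j)) : ℝ) ^ 2) atTop atTop := by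
    refine tendsto_atTop_mono (fun j => ?_) tendsto_harmonic
    have := hlow j
    have h0 := harmonic_ge_one (j + 1) (by omega)
    nlinarith
  have hR2nat : Tendsto (fun j => R2 (gr (2 * (j + 1) * JJ j) (kk j))) atTop atTop := by
    rw [tendsto_atTop_atTop]
    intro b
    rw [tendsto_atTop_atTop] at hR2sq
    obtain ⟨i, hi⟩ := hR2sq ((b : ℝ) ^ 2)
    refine ⟨i, fun a ha => ?_⟩
    have := hi a ha
    by_contra hlt
    push Not at hlt
    have h' : ((R2 (gr (2 * (a + 1) * JJ a) (kk a)) : ℕ) : ℝ) < b := by exact_mod_cast hlt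
    have h0 : (0 : ℝ) ≤ (R2 (gr (2 * (a + 1) * JJ a) (kk a)) : ℝ) := Nat.cast_nonneg _
    nlinarith
  have hR2real : Tendsto (fun j => (R2 (gr (2 * (j + 1) * JJ j) (kk j)) : ℝ)) atTop atTop :=
    tendsto_natCast_atTop_atTop.comp hR2nat
  -- the small probability
  have hsmall : Tendsto (fun j : ℕ => ENNReal.ofReal (2 / ((j + 1 : ℕ) : ℝ))) atTop (nhds 0) := by
    rw [← ENNReal.ofReal_zero]
    apply ENNReal.tendsto_ofReal
    have : Tendsto (fun j : ℕ => ((j + 1 : ℕ) : ℝ)) atTop atTop :=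
      tendsto_natCast_atTop_atTop.comp (tendsto_add_atTop_nat 1)
    exact this.const_div_atTop 2
  have hev : ∀ᶠ j : ℕ in atTop, (2 : ℝ) < (harmonic (j + 1) : ℝ) := tendsto_harmonic.eventually_gt_atTop 2
  have hquad : Tendsto (fun j => (alloc (gr (2 * (j + 1) * JJ j) (kk j))
      (nsOf (2 * (j + 1) * JJ j) (kk j) (j + 1)).sum).toOuterMeasure
      {X | (maxLoad X : ℝ) < ((nsOf (2 * (j + 1) * JJ j) (kk j) (j + 1)).sum : ℝ) /
        (Fintype.card (ZMod (2 * (j + 1) * JJ j) × Fin (kk j)) : ℝ) +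
        (R2 (gr (2 * (j + 1) * JJ j) (kk j)) : ℝ) ^ 2 / 26}) atTop (nhds 0) := by
    refine tendsto_of_tendsto_of_tendsto_of_le_of_le' tendsto_const_nhds hsmall
      (Eventually.of_forall fun _ => zero_le) ?_
    filter_upwards [hev] with j hj
    refine le_trans ?_ (hcore j)
    apply MeasureTheory.OuterMeasure.mono
    intro X hX
    simp only [Set.mem_ofPred_eq] at hX ⊢
    rw [hmn j] at hX
    have hs2 : Real.sqrt (6 * (harmonic (j + 1) : ℝ)) ^ 2 = 6 * (harmonic (j + 1) : ℝ) :=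
      Real.sq_sqrt (by positivity)
    have hu := hup j
    have h0 : (0 : ℝ) ≤ (R2 (gr (2 * (j + 1) * JJ j) (kk j)) : ℝ) := Nat.cast_nonneg _
    have hs0 := Real.sqrt_nonneg (6 * (harmonic (j + 1) : ℝ))
    have hb : (R2 (gr (2 * (j + 1) * JJ j) (kk j)) : ℝ) ^ 2 ≤ 12 * (harmonic (j + 1) : ℝ) + 2 := by
      have : (R2 (gr (2 * (j + 1) * JJ j) (kk j)) : ℝ) ^ 2 ≤
          (Real.sqrt (6 * (harmonic (j + 1) : ℝ)) + 1) ^ 2 := by
        exact pow_le_pow_left₀ h0 hu 2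
      nlinarith [sq_nonneg (Real.sqrt (6 * (harmonic (j + 1) : ℝ)) - 1)]
    have : (maxLoad X : ℝ) < ((j + 1 : ℕ) : ℝ) := by linarith
    exact_mod_cast this
  refine ⟨fun j => ZMod (2 * (j + 1) * JJ j) × Fin (kk j), fun j => inferInstance,
    fun j => inferInstance, fun j => inferInstance, fun j => gr (2 * (j + 1) * JJ j) (kk j),
    fun j => (nsOf (2 * (j + 1) * JJ j) (kk j) (j + 1)).sum,
    fun j => (hI1 _ _ (hN3 j) (h1 j)).1, fun j => (hI1 _ _ (hN3 j) (h1 j)).2, ?_, hR2nat, ?_,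
    hquad, ?_⟩
  · -- card
    refine tendsto_atTop_mono (fun j => ?_) (tendsto_add_atTop_nat 1)
    rw [Fintype.card_prod, ZMod.card, Fintype.card_fin]
    have := h10 j
    have := h1 j
    nlinarith
  · -- m/(n R2)
    have hlim : Tendsto (fun j : ℕ => Real.sqrt ((j + 1 : ℕ) : ℝ) / 8) atTop atTop := by
      apply Tendsto.atTop_div_const (by norm_num)
      exact Real.tendsto_sqrt_atTop.comp
        (tendsto_natCast_atTop_atTop.comp (tendsto_add_atTop_nat 1))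
    refine tendsto_atTop_mono (fun j => ?_) hlim
    have hle := harmonic_le_self (j + 1)
    have hge := harmonic_ge_one (j + 1) (by omega)
    have hj1 : (1 : ℝ) ≤ ((j + 1 : ℕ) : ℝ) := by exact_mod_cast (by omega : 1 ≤ j + 1)
    have hR0 : (0 : ℝ) < (R2 (gr (2 * (j + 1) * JJ j) (kk j)) : ℝ) := by
      have h0 : (0 : ℝ) ≤ (R2 (gr (2 * (j + 1) * JJ j) (kk j)) : ℝ) := Nat.cast_nonneg _
      rcases h0.eq_or_lt with h | h
      · exfalso
        have := hlow j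
        rw [← h] at this
        nlinarith
      · exact h
    have hdiv : ((nsOf (2 * (j + 1) * JJ j) (kk j) (j + 1)).sum : ℝ) /
        ((Fintype.card (ZMod (2 * (j + 1) * JJ j) × Fin (kk j)) : ℝ) *
          (R2 (gr (2 * (j + 1) * JJ j) (kk j)) : ℝ)) =
        (((j + 1 : ℕ) : ℝ) - (harmonic (j + 1) : ℝ) / 2) /
          (R2 (gr (2 * (j + 1) * JJ j) (kk j)) : ℝ) := by
      rw [← div_div, hmn j]
    show _ ≤ ((nsOf (2 * (j + 1) * JJ j) (kk j) (j + 1)).sum : ℝ) /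
        ((Fintype.card (ZMod (2 * (j + 1) * JJ j) × Fin (kk j)) : ℝ) *
          (R2 (gr (2 * (j + 1) * JJ j) (kk j)) : ℝ))
    rw [hdiv, div_le_div_iff₀ (by norm_num) hR0]
    have hs := Real.sq_sqrt (show (0 : ℝ) ≤ ((j + 1 : ℕ) : ℝ) by positivity)
    have hs1 : 1 ≤ Real.sqrt ((j + 1 : ℕ) : ℝ) := by
      rw [Real.one_le_sqrt]; exact hj1
    have hup' : (R2 (gr (2 * (j + 1) * JJ j) (kk j)) : ℝ) ≤ 4 * Real.sqrt ((j + 1 : ℕ) : ℝ) := by
      refine (hup j).trans ?_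
      have : Real.sqrt (6 * (harmonic (j + 1) : ℝ)) ≤ 3 * Real.sqrt ((j + 1 : ℕ) : ℝ) := by
        rw [Real.sqrt_le_left (by positivity), mul_pow, hs]
        nlinarith
      linarith
    nlinarith
  · -- two-sided bound
    intro c C
    have hCev : ∀ᶠ j : ℕ in atTop, 26 * C < (R2 (gr (2 * (j + 1) * JJ j) (kk j)) : ℝ) :=
      hR2real.eventually_gt_atTop (26 * C)
    refine tendsto_of_tendsto_of_tendsto_of_le_of_le' tendsto_const_nhds hquad
      (Eventually.of_forall fun _ => zero_le) ?_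
    filter_upwards [hCev, hR2real.eventually_gt_atTop 0] with j hj hj0
    apply MeasureTheory.OuterMeasure.mono
    intro X hX
    simp only [Set.mem_ofPred_eq] at hX ⊢
    refine lt_of_le_of_lt hX.2 ?_
    have : C * (R2 (gr (2 * (j + 1) * JJ j) (kk j)) : ℝ) <
        (R2 (gr (2 * (j + 1) * JJ j) (kk j)) : ℝ) ^ 2 / 26 := by
      nlinarith
    linarith

end Pool.Agent.R88.LS
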