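import Pool.Agent.R88.LS.F

/-! Project LS, piece G: lower bound of the threshold probability. -/

set_option autoImplicit false

namespace Pool.Agent.R88.LS

open scoped ENNReal

namespace GAux

open IidAux

/-- probability of exact counts -/
noncomputable def ex (C : Type) [Fintype C] [DecidableEq C] [Nonempty C] (k : ℕ) [NeZero k]
    (n : ℕ) (U : Finset C) (c : C → ℕ) : ℝ≥0∞ :=
  (iid (C × Fin k) n).toOuterMeasure {l | ∀ i ∈ U, cnt i l = c i}

theorem ex_zero (C : Type) [Fintype C] [DecidableEq C] [Nonempty C] (k : ℕ) [NeZero k]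
    (U : Finset C) (c : C → ℕ) (h : ∀ i ∈ U, c i = 0) : ex C k 0 U c = 1 := by
  classical
  unfold ex iid
  rw [PMF.toOuterMeasure_pure_apply, if_pos]
  intro i hi
  rw [h i hi]
  rfl

theorem ex_succ (C : Type) [Fintype C] [DecidableEq C] [Nonempty C] (k : ℕ) [NeZero k]
    (n : ℕ) (U : Finset C) (c : C → ℕ) :
    ex C k (n + 1) U c = ∑ x : C, (Fintype.card C : ℝ≥0∞)⁻¹ *
      (if x ∈ U then (if c x = 0 then 0 else ex C k n U (dec c x)) else ex C k n U c) := by
  refine iid_col C k n _ _ fun x a => ?_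
  split_ifs with hx hc
  · have h1 : {l : List (C × Fin k) | (x, a) :: l ∈
        {l : List (C × Fin k) | ∀ i ∈ U, cnt i l = c i}} = ∅ := by
      ext l
      simp only [Set.mem_ofPred_eq, Set.mem_empty_iff_false, iff_false]
      intro h
      have h2 := h x hx
      rw [cnt_cons, if_pos rfl] at h2
      omega
    rw [h1]
    exact (iid (C × Fin k) n).toOuterMeasure.empty
  · unfold ex
    congr 1
    ext l
    simp only [Set.mem_ofPred_eq]
    refine forall_congr' fun i => forall_congr' fun _ => ?_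
    rw [cnt_cons]
    unfold dec
    split_ifs with h
    · subst h
      omega
    · omega
  · unfold ex
    congr 1
    ext l
    simp only [Set.mem_ofPred_eq]
    refine forall_congr' fun i => forall_congr' fun hi => ?_
    rw [cnt_cons, if_neg (by rintro rfl; exact hx hi), add_zero]

/-- the multinomial formula -/
noncomputable def q (p r : ℝ) (n s : ℕ) (P : ℝ) : ℝ :=
  (n.descFactorial s : ℝ) / P * p ^ s * r ^ (n - s)

theorem pascal (n s : ℕ) : (n + 1).descFactorial (s + 1) =
    (s + 1) * n.descFactorial s + n.descFactorial (s + 1) := by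
  rw [Nat.succ_descFactorial_succ, Nat.descFactorial_succ, ← add_mul]
  rcases le_or_gt s n with h | h
  · congr 1
    omega
  · rw [Nat.descFactorial_of_lt h]
    simp

theorem q_rec {C : Type} [Fintype C] [DecidableEq C] [Nonempty C] (U : Finset C) (c : C → ℕ)
    (n : ℕ) (p r : ℝ) (hp : p = (Fintype.card C : ℝ)⁻¹)
    (hr : r = ((Fintype.card C : ℝ) - U.card) * p) :
    q p r (n + 1) (∑ i ∈ U, c i) (∏ i ∈ U, ((c i).factorial : ℝ)) = ∑ x : C, p *
      (if x ∈ U then (if c x = 0 then 0 else
        q p r n (∑ i ∈ U, dec c x i) (∏ i ∈ U, ((dec c x i).factorial : ℝ))) else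
        q p r n (∑ i ∈ U, c i) (∏ i ∈ U, ((c i).factorial : ℝ))) := by
  set P : ℝ := ∏ i ∈ U, ((c i).factorial : ℝ) with hP
  have hP0 : P ≠ 0 := Finset.prod_ne_zero_iff.2 fun i _ => by
    exact_mod_cast (Nat.factorial_pos _).ne'
  have hsplit : ∑ x : C, p * (if x ∈ U then (if c x = 0 then 0 else
        q p r n (∑ i ∈ U, dec c x i) (∏ i ∈ U, ((dec c x i).factorial : ℝ))) else
        q p r n (∑ i ∈ U, c i) P) =
      ∑ x ∈ U, p * (if c x = 0 then 0 else
        q p r n (∑ i ∈ U, dec c x i) (∏ i ∈ U, ((dec c x i).factorial : ℝ))) +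
      ((Fintype.card C : ℝ) - U.card) * (p * q p r n (∑ i ∈ U, c i) P) := by
    rw [← Finset.sum_add_sum_compl U]
    congr 1
    · refine Finset.sum_congr rfl fun x hx => ?_
      rw [if_pos hx]
    · rw [Finset.sum_congr rfl (g := fun _ => p * q p r n (∑ i ∈ U, c i) P) fun x hx => by
        rw [if_neg (Finset.mem_compl.1 hx)], Finset.sum_const, nsmul_eq_mul,
        Finset.card_compl, Nat.cast_sub (Finset.card_le_univ U)]
  rw [hsplit, ← mul_assoc, ← hr]
  rcases Nat.eq_zero_or_pos (∑ i ∈ U, c i) with hs | hs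
  · have hc : ∀ x ∈ U, c x = 0 := fun x hx => Finset.sum_eq_zero_iff.1 hs x hx
    have hz : ∑ x ∈ U, p * (if c x = 0 then 0 else
        q p r n (∑ i ∈ U, dec c x i) (∏ i ∈ U, ((dec c x i).factorial : ℝ))) = 0 :=
      Finset.sum_eq_zero fun x hx => by rw [if_pos (hc x hx), mul_zero]
    rw [hz, hs]
    unfold q
    simp only [Nat.descFactorial_zero, pow_zero, Nat.sub_zero]
    rw [pow_succ]
    ring
  · obtain ⟨s, hs'⟩ : ∃ s, ∑ i ∈ U, c i = s + 1 := ⟨_, (Nat.succ_pred_eq_of_pos hs).symm⟩
    have hterm : ∀ x ∈ U, p * (if c x = 0 then 0 else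
        q p r n (∑ i ∈ U, dec c x i) (∏ i ∈ U, ((dec c x i).factorial : ℝ))) =
        (c x : ℝ) * ((n.descFactorial s : ℝ) / P * p ^ (s + 1) * r ^ (n - s)) := by
      intro x hx
      split_ifs with h0
      · rw [h0]
        simp
      · have e1 : ∑ i ∈ U, dec c x i = s := by
          have h1 := Finset.add_sum_erase U c hx
          have h2 := Finset.add_sum_erase U (dec c x) hx
          have h3 : ∑ i ∈ U.erase x, dec c x i = ∑ i ∈ U.erase x, c i :=
            Finset.sum_congr rfl fun i hi => by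
              unfold dec
              rw [if_neg (Finset.ne_of_mem_erase hi)]
          have h4 : dec c x x = c x - 1 := by
            unfold dec
            rw [if_pos rfl]
          omega
        have e2 : (c x : ℝ) * ∏ i ∈ U, ((dec c x i).factorial : ℝ) = P := by
          rw [hP, ← Finset.mul_prod_erase U _ hx, ← Finset.mul_prod_erase U _ hx, ← mul_assoc]
          have h3 : ∏ i ∈ U.erase x, ((dec c x i).factorial : ℝ) =
              ∏ i ∈ U.erase x, ((c i).factorial : ℝ) :=
            Finset.prod_congr rfl fun i hi => by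
              unfold dec
              rw [if_neg (Finset.ne_of_mem_erase hi)]
          have h4 : dec c x x = c x - 1 := by
            unfold dec
            rw [if_pos rfl]
          rw [h3, h4]
          congr 1
          exact_mod_cast Nat.mul_factorial_pred h0
        have hQ0 : ∏ i ∈ U, ((dec c x i).factorial : ℝ) ≠ 0 := by
          intro h
          rw [h, mul_zero] at e2
          exact hP0 e2.symm
        have hc0 : (c x : ℝ) ≠ 0 := by exact_mod_cast h0
        rw [e1]
        unfold q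
        rw [← e2, pow_succ]
        field_simp
    rw [Finset.sum_congr rfl hterm, ← Finset.sum_mul, ← Nat.cast_sum, hs']
    unfold q
    have h5 : r * ((n.descFactorial (s + 1) : ℝ) / P * p ^ (s + 1) * r ^ (n - (s + 1))) =
        (n.descFactorial (s + 1) : ℝ) / P * p ^ (s + 1) * r ^ (n - s) := by
      rcases Nat.lt_or_ge n (s + 1) with h | h
      · rw [Nat.descFactorial_of_lt h]
        simp
      · have e : n - s = (n - (s + 1)) + 1 := by omega
        rw [e, pow_succ]
        ring
    have h6 : n + 1 - (s + 1) = n - s := by omega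
    rw [h5, h6, pascal]
    push_cast
    ring

theorem lower (C : Type) [Fintype C] [DecidableEq C] [Nonempty C] (k : ℕ) [NeZero k]
    (U : Finset C) (p r : ℝ) (hp : p = (Fintype.card C : ℝ)⁻¹)
    (hr : r = ((Fintype.card C : ℝ) - U.card) * p) (n : ℕ) : ∀ c : C → ℕ,
    ENNReal.ofReal (q p r n (∑ i ∈ U, c i) (∏ i ∈ U, ((c i).factorial : ℝ))) ≤ ex C k n U c := by
  have hN : (0 : ℝ) < Fintype.card C := by exact_mod_cast Fintype.card_pos
  have hp0 : 0 ≤ p := by rw [hp]; positivity
  have hr0 : 0 ≤ r := by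
    rw [hr]
    refine mul_nonneg ?_ hp0
    have : (U.card : ℝ) ≤ Fintype.card C := by exact_mod_cast Finset.card_le_univ U
    linarith
  have hq0 : ∀ n s P, 0 ≤ P → 0 ≤ q p r n s P := by
    intro n s P hP
    unfold q
    positivity
  induction n with
  | zero =>
    intro c
    rcases Nat.eq_zero_or_pos (∑ i ∈ U, c i) with hs | hs
    · have hc : ∀ x ∈ U, c x = 0 := fun x hx => Finset.sum_eq_zero_iff.1 hs x hx
      rw [ex_zero C k U c hc, hs]
      have h1 : ∏ i ∈ U, ((c i).factorial : ℝ) = 1 :=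
        Finset.prod_eq_one fun i hi => by rw [hc i hi]; simp
      rw [h1]
      unfold q
      simp
    · have h1 : q p r 0 (∑ i ∈ U, c i) (∏ i ∈ U, ((c i).factorial : ℝ)) = 0 := by
        unfold q
        rw [Nat.descFactorial_of_lt hs]
        simp
      rw [h1, ENNReal.ofReal_zero]
      exact zero_le
  | succ n ih =>
    intro c
    rw [q_rec U c n p r hp hr, ex_succ, ENNReal.ofReal_sum_of_nonneg]
    · refine Finset.sum_le_sum fun x _ => ?_
      rw [ENNReal.ofReal_mul hp0]
      have hpp : ENNReal.ofReal p = (Fintype.card C : ℝ≥0∞)⁻¹ := by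
        rw [hp, ENNReal.ofReal_inv_of_pos hN, ENNReal.ofReal_natCast]
      rw [hpp]
      refine mul_le_mul_right ?_ _
      split_ifs
      · rw [ENNReal.ofReal_zero]
      · exact ih _
      · exact ih _
    · intro x _
      refine mul_nonneg hp0 ?_
      split_ifs
      · exact le_rfl
      · exact hq0 _ _ _ (Finset.prod_nonneg fun i _ => by positivity)
      · exact hq0 _ _ _ (Finset.prod_nonneg fun i _ => by positivity)

end GAux

open GAux IidAux

theorem sG : S_G := by
  intro C _ _ _ k _ n ν κ U hn hν hκ hU h1 h2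
  set N : ℕ := Fintype.card C with hNdef
  set w : ℕ := U.card with hw
  have hNpos : 0 < N := Fintype.card_pos
  have hNR : (0 : ℝ) < N := by exact_mod_cast hNpos
  have hνR : (1 : ℝ) ≤ ν := by exact_mod_cast hν
  set p : ℝ := (N : ℝ)⁻¹ with hp
  set r : ℝ := ((N : ℝ) - w) * p with hr
  set s : ℕ := w * κ with hs
  have hex : thr C k n U (fun _ => κ) ≥ ex C k n U (fun _ => κ) := by
    unfold thr ex
    refine (iid (C × Fin k) n).toOuterMeasure.mono fun l hl i hi => ?_
    exact (hl i hi).ge
  refine le_trans ?_ hex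
  refine le_trans ?_ (lower C k U p r hp hr n (fun _ => κ))
  refine ENNReal.ofReal_le_ofReal ?_
  rw [Finset.sum_const, Finset.prod_const, smul_eq_mul, ← hw, ← hs]
  unfold q
  have hs1 : 1 ≤ s := Nat.mul_pos hU hκ
  have hnR : (n : ℝ) = N * ν := by rw [hn]; push_cast; ring
  have hn0 : (0 : ℝ) < n := by rw [hnR]; positivity
  have hsR : 2 * (s : ℝ) ^ 2 ≤ N := by exact_mod_cast h1
  have hsN : (s : ℝ) ≤ n := by
    have h3 : (1 : ℝ) ≤ s := by exact_mod_cast hs1
    rw [hnR]
    nlinarith
  -- first factor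
  have hA : (ν : ℝ) ^ s / 2 ≤ (n.descFactorial s : ℝ) * p ^ s := by
    have h3 : ((n + 1 - s) ^ s : ℕ) ≤ n.descFactorial s := Nat.pow_sub_le_descFactorial n s
    have h4 : ((n : ℝ) - s) ^ s ≤ (n.descFactorial s : ℝ) := by
      have h5 : ((n : ℝ) - s) ^ s ≤ (((n + 1 - s : ℕ)) : ℝ) ^ s := by
        refine pow_le_pow_left₀ (by linarith) ?_ s
        have h6 : s ≤ n + 1 := by
          have : s ≤ n := by exact_mod_cast hsN
          omega
        rw [Nat.cast_sub h6]
        push_cast
        linarith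
      refine h5.trans ?_
      exact_mod_cast h3
    have h7 : (1 : ℝ) / 2 ≤ (1 - s / n) ^ s := by
      have h8 := one_add_mul_le_pow (a := -(s / n : ℝ)) (by
        have : (s : ℝ) / n ≤ 1 := by
          rw [div_le_one hn0]
          exact hsN
        linarith) s
      have h9 : (s : ℝ) * (s / n) ≤ 1 / 2 := by
        rw [mul_div_assoc', div_le_div_iff₀ hn0 (by norm_num)]
        rw [hnR]
        nlinarith
      calc (1 : ℝ) / 2 ≤ 1 + (s : ℝ) * -(s / n) := by linarith
        _ ≤ (1 + -(s / n : ℝ)) ^ s := h8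
        _ = _ := by rw [← sub_eq_add_neg]
    have h10 : ((n : ℝ) - s) ^ s * p ^ s = (ν : ℝ) ^ s * (1 - s / n) ^ s := by
      rw [← mul_pow, ← mul_pow]
      congr 1
      rw [hp, hnR]
      field_simp
    calc (ν : ℝ) ^ s / 2 = (ν : ℝ) ^ s * (1 / 2) := by ring
      _ ≤ (ν : ℝ) ^ s * (1 - s / n) ^ s := mul_le_mul_of_nonneg_left h7 (by positivity)
      _ = ((n : ℝ) - s) ^ s * p ^ s := h10.symm
      _ ≤ _ := mul_le_mul_of_nonneg_right h4 (by positivity)
  -- second factor
  have hwN : (w : ℝ) / N ≤ 1 := by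
    rw [div_le_one hNR]
    exact_mod_cast Finset.card_le_univ U
  have hr1 : r = 1 - w / N := by
    rw [hr, hp]
    field_simp
  have hr0 : 0 ≤ r := by rw [hr1]; linarith
  have hrle : r ≤ 1 := by
    rw [hr1]
    have : (0 : ℝ) ≤ (w : ℝ) / N := by positivity
    linarith
  have hB : Real.exp (-ν) ^ w / 2 ≤ r ^ (n - s) := by
    have h3 : r ^ n ≤ r ^ (n - s) := pow_le_pow_of_le_one hr0 hrle (Nat.sub_le _ _)
    refine le_trans ?_ h3
    set y : ℝ := (w : ℝ) / N with hy
    have hy0 : 0 ≤ y := by positivity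
    have h4 : Real.exp (-y) * (1 - y ^ 2) ≤ r := by
      rw [hr1]
      have h5 : 1 + y ≤ Real.exp y := by linarith [Real.add_one_le_exp y]
      have h6 : (1 - y ^ 2) ≤ Real.exp y * (1 - y) := by
        calc 1 - y ^ 2 = (1 + y) * (1 - y) := by ring
          _ ≤ _ := mul_le_mul_of_nonneg_right h5 (by linarith)
      calc Real.exp (-y) * (1 - y ^ 2) ≤ Real.exp (-y) * (Real.exp y * (1 - y)) :=
            mul_le_mul_of_nonneg_left h6 (Real.exp_pos _).le
        _ = 1 - y := by
            rw [← mul_assoc, ← Real.exp_add]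
            simp
    have h7 : 0 ≤ 1 - y ^ 2 := by nlinarith
    have h8 : (Real.exp (-y) * (1 - y ^ 2)) ^ n ≤ r ^ n :=
      pow_le_pow_left₀ (mul_nonneg (Real.exp_pos _).le h7) h4 n
    refine le_trans ?_ h8
    rw [mul_pow]
    have h9 : Real.exp (-y) ^ n = Real.exp (-ν) ^ w := by
      rw [← Real.exp_nat_mul, ← Real.exp_nat_mul]
      congr 1
      rw [hnR, hy]
      field_simp
    have h10 : (1 : ℝ) / 2 ≤ (1 - y ^ 2) ^ n := by
      have h11 := one_add_mul_le_pow (a := -(y ^ 2)) (by nlinarith) n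
      have h12 : (n : ℝ) * y ^ 2 ≤ 1 / 4 := by
        rw [hnR, hy, div_pow]
        have h13 : (N : ℝ) * ν * ((w : ℝ) ^ 2 / (N : ℝ) ^ 2) = w ^ 2 * ν / N := by
          field_simp
        rw [h13, div_le_div_iff₀ hNR (by norm_num)]
        have h14 : 4 * (w : ℝ) ^ 2 * ν ≤ N := by exact_mod_cast h2
        linarith
      calc (1 : ℝ) / 2 ≤ 1 + (n : ℝ) * -(y ^ 2) := by linarith
        _ ≤ (1 + -(y ^ 2)) ^ n := h11
        _ = _ := by rw [← sub_eq_add_neg]
    rw [h9]
    calc Real.exp (-ν) ^ w / 2 = Real.exp (-ν) ^ w * (1 / 2) := by ring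
      _ ≤ _ := mul_le_mul_of_nonneg_left h10 (by positivity)
  have hK : (0 : ℝ) < (κ.factorial : ℝ) ^ w := by
    have : (0 : ℝ) < κ.factorial := by exact_mod_cast Nat.factorial_pos κ
    positivity
  calc 1 / 4 * ((ν : ℝ) ^ κ * Real.exp (-ν) / (κ.factorial : ℝ)) ^ w
      = ((ν : ℝ) ^ s / 2) * (Real.exp (-ν) ^ w / 2) / (κ.factorial : ℝ) ^ w := by
        rw [div_pow, mul_pow, ← pow_mul, mul_comm κ w, ← hs]
        ring
    _ ≤ ((n.descFactorial s : ℝ) * p ^ s) * (r ^ (n - s)) / (κ.factorial : ℝ) ^ w := by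
        refine div_le_div_of_nonneg_right ?_ hK.le
        exact mul_le_mul hA hB (by positivity) (by positivity)
    _ = _ := by ring

end Pool.Agent.R88.LS
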