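import Pool.Agent.R88.LS.Stm

/-!
# Piece H12 of project LS (MP_d24e49_pr): windows
-/

set_option autoImplicit false

namespace Pool.Agent.R88.LS

open scoped ENNReal

theorem periods_length (V : Type) [Fintype V] [Nonempty V] (ns : List ℕ) :
    ∀ ls ∈ (periods V ns).support, ls.length = ns.length := by
  induction ns with
  | nil =>
    intro ls h
    simp only [periods, PMF.support_pure, Set.mem_singleton_iff] at h
    simp [h]
  | cons n ns ih =>
    intro ls h
    simp only [periods, PMF.mem_support_bind_iff, PMF.support_map, Set.mem_image] at h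
    obtain ⟨l, _, ls', h', rfl⟩ := h
    simp [ih ls' h']

/-- product formula for the first period -/
theorem periods_cons_prod (V : Type) [Fintype V] [Nonempty V] (n : ℕ) (ns : List ℕ)
    (E : Set (List (List V))) (A : Set (List V)) (B : Set (List (List V)))
    (h : ∀ l ls, ls.length = ns.length → ((l :: ls) ∈ E ↔ l ∈ A ∧ ls ∈ B)) :
    (periods V (n :: ns)).toOuterMeasure E =
      (iid V n).toOuterMeasure A * (periods V ns).toOuterMeasure B := by
  classical
  rw [periods, PMF.toOuterMeasure_bind_apply, PMF.toOuterMeasure_apply (iid V n), ← ENNReal.tsum_mul_right]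
  refine tsum_congr fun l => ?_
  rw [PMF.toOuterMeasure_map_apply]
  by_cases hl : l ∈ A
  · rw [Set.indicator_of_mem hl]
    congr 1
    refine PMF.toOuterMeasure_apply_eq_of_inter_support_eq _ ?_
    ext ls
    simp only [Set.mem_inter_iff, Set.mem_preimage]
    constructor
    · rintro ⟨h1, h2⟩
      exact ⟨((h l ls (periods_length V ns ls h2)).1 h1).2, h2⟩
    · rintro ⟨h1, h2⟩
      exact ⟨(h l ls (periods_length V ns ls h2)).2 ⟨hl, h1⟩, h2⟩
  · rw [Set.indicator_of_notMem hl, zero_mul]
    have : (periods V ns).toOuterMeasure ((fun ls => l :: ls) ⁻¹' E) = 0 := by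
      rw [PMF.toOuterMeasure_apply_eq_zero_iff, Set.disjoint_left]
      intro ls h2 h1
      exact hl ((h l ls (periods_length V ns ls h2)).1 h1).1
    rw [this, mul_zero]

theorem forall_win {N : ℕ} (c : ZMod N) (q : ℕ) (P : ZMod N → Prop) :
    (∀ t : ℤ, |t| ≤ (q : ℤ) → P (c + (t : ZMod N))) ↔ ∀ i ∈ win c q, P i := by
  unfold win
  simp only [Finset.mem_image, Finset.mem_Icc, forall_exists_index, and_imp]
  constructor
  · rintro h i t h1 h2 rfl
    exact h t (abs_le.2 ⟨h1, h2⟩)
  · intro h t ht
    exact h _ t (abs_le.1 ht).1 (abs_le.1 ht).2 rfl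

/-- H1 -/
theorem sH1 : S_H1 := by
  intro N k _ _ κ c n ns
  rw [thr]
  refine periods_cons_prod _ n ns _ _ _ ?_
  intro l ls hlen
  simp only [Set.mem_setOf_eq, Good, hlen]
  rw [forall_win c ns.length (fun i => κ ≤ cnt i l)]

/-- H2 -/
theorem sH2 (hF : S_F) : S_H2 := by
  intro N k _ _ κ c c' ns
  induction ns with
  | nil =>
    intro _
    simp [periods, Good, PMF.toOuterMeasure_pure_apply]
  | cons n ns ih =>
    intro hd
    have ih' := ih (fun q hq => hd q (by simp only [List.length_cons]; omega))
    rw [sH1 N k κ c n ns, sH1 N k κ c' n ns]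
    have h1 : (periods (ZMod N × Fin k) (n :: ns)).toOuterMeasure
        {ls | Good κ c ls ∧ Good κ c' ls} =
        thr (ZMod N) k n (win c ns.length ∪ win c' ns.length) (fun _ => κ) *
          (periods (ZMod N × Fin k) ns).toOuterMeasure {ls | Good κ c ls ∧ Good κ c' ls} := by
      rw [thr]
      refine periods_cons_prod _ n ns _ _ _ ?_
      intro l ls hlen
      simp only [Set.mem_setOf_eq, Good, hlen, Finset.mem_union]
      rw [forall_win c ns.length (fun i => κ ≤ cnt i l),
        forall_win c' ns.length (fun i => κ ≤ cnt i l)]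
      constructor
      · rintro ⟨⟨h1, h2⟩, h3, h4⟩
        refine ⟨?_, h2, h4⟩
        rintro i (hi | hi)
        · exact h1 i hi
        · exact h3 i hi
      · rintro ⟨h1, h2, h4⟩
        exact ⟨⟨fun i hi => h1 i (Or.inl hi), h2⟩, fun i hi => h1 i (Or.inr hi), h4⟩
    rw [h1]
    have h2 := hF (ZMod N) k n (win c ns.length) (win c' ns.length) (fun _ => κ)
      (hd ns.length (by simp))
    calc _ ≤ (thr (ZMod N) k n (win c ns.length) (fun _ => κ) *
          thr (ZMod N) k n (win c' ns.length) (fun _ => κ)) *
          ((periods (ZMod N × Fin k) ns).toOuterMeasure {ls | Good κ c ls} *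
            (periods (ZMod N × Fin k) ns).toOuterMeasure {ls | Good κ c' ls}) :=
          mul_le_mul' h2 ih'
      _ = _ := by ring

end Pool.Agent.R88.LS
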