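import Pool.Agent.R88.LS.Stm

/-!
# Piece H3 and H of project LS (MP_d24e49_pr)
-/

set_option autoImplicit false

namespace Pool.Agent.R88.LS

open scoped ENNReal

theorem H3.key (m : ℝ≥0∞) (hm : m ≠ ⊤) (z : ℕ) :
    (if z = 0 then m ^ 2 else 0) + 2 * m * (z : ℝ≥0∞) ≤ (z : ℝ≥0∞) ^ 2 + m ^ 2 := by
  lift m to NNReal using hm
  split_ifs with h
  · subst h; simp
  · have : (2 * (m : ℝ) * z) ≤ (z : ℝ) ^ 2 + (m : ℝ) ^ 2 := by
      nlinarith [sq_nonneg ((z : ℝ) - m)]
    have h2 : (2 * m * z : NNReal) ≤ (z : NNReal) ^ 2 + m ^ 2 := by exact_mod_cast this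
    rw [zero_add]
    exact_mod_cast h2

theorem sH3 : S_H3 := by
  classical
  intro α p J A b hb hA hneg hJ
  have hP : ∀ S : Set α, p.toOuterMeasure S = ∑' x, p x * (if x ∈ S then 1 else 0) := by
    intro S
    rw [PMF.toOuterMeasure_apply]
    refine tsum_congr fun x => ?_
    by_cases h : x ∈ S <;> simp [h]
  set Z : α → ℕ := fun x => ((Finset.range J).filter (fun j => x ∈ A j)).card with hZdef
  have hZ : ∀ x, (Z x : ℝ≥0∞) = ∑ j ∈ Finset.range J, (if x ∈ A j then (1 : ℝ≥0∞) else 0) := by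
    intro x
    rw [Finset.sum_boole]
  set m : ℝ≥0∞ := ∑ j ∈ Finset.range J, p.toOuterMeasure (A j) with hm
  have hle1 : ∀ S : Set α, p.toOuterMeasure S ≤ 1 := by
    intro S
    rw [hP]
    calc _ ≤ ∑' x, p x := by
          refine ENNReal.tsum_le_tsum fun x => ?_
          split_ifs <;> simp
      _ = 1 := p.tsum_coe
  have hmtop : m ≠ ⊤ := by
    rw [hm]
    exact (ENNReal.sum_lt_top.2 fun j _ => lt_of_le_of_lt (hle1 _) ENNReal.one_lt_top).ne
  have EZ : ∑' x, p x * (Z x : ℝ≥0∞) = m := by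
    simp only [hZ, Finset.mul_sum, hm, hP]
    rw [Summable.tsum_finsetSum (fun _ _ => ENNReal.summable)]
  have EZ2 : ∑' x, p x * (Z x : ℝ≥0∞) ^ 2 ≤ m + m ^ 2 := by
    have e1 : ∑' x, p x * (Z x : ℝ≥0∞) ^ 2 =
        ∑ i ∈ Finset.range J, ∑ j ∈ Finset.range J, p.toOuterMeasure (A i ∩ A j) := by
      have e2 : ∀ x, p x * (Z x : ℝ≥0∞) ^ 2 = ∑ i ∈ Finset.range J, ∑ j ∈ Finset.range J,
          p x * (if x ∈ A i ∩ A j then 1 else 0) := by
        intro x
        rw [hZ, sq, Finset.sum_mul_sum, Finset.mul_sum]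
        refine Finset.sum_congr rfl fun i _ => ?_
        rw [Finset.mul_sum]
        refine Finset.sum_congr rfl fun j _ => ?_
        by_cases h1 : x ∈ A i <;> by_cases h2 : x ∈ A j <;> simp [h1, h2]
      simp only [e2, hP]
      rw [Summable.tsum_finsetSum (fun _ _ => ENNReal.summable)]
      refine Finset.sum_congr rfl fun i _ => ?_
      rw [Summable.tsum_finsetSum (fun _ _ => ENNReal.summable)]
      congr!
    rw [e1]
    calc ∑ i ∈ Finset.range J, ∑ j ∈ Finset.range J, p.toOuterMeasure (A i ∩ A j)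
        ≤ ∑ i ∈ Finset.range J, ∑ j ∈ Finset.range J,
          ((if i = j then p.toOuterMeasure (A i) else 0) +
            p.toOuterMeasure (A i) * p.toOuterMeasure (A j)) := by
          refine Finset.sum_le_sum fun i hi => Finset.sum_le_sum fun j hj => ?_
          split_ifs with h
          · subst h
            rw [Set.inter_self]
            exact le_self_add
          · rw [zero_add]
            exact hneg i j (Finset.mem_range.1 hi) (Finset.mem_range.1 hj) h
      _ = m + m ^ 2 := by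
          simp only [Finset.sum_add_distrib, sq, hm]
          rw [Finset.sum_mul_sum]
          congr 1
          refine Finset.sum_congr rfl fun i hi => ?_
          rw [Finset.sum_ite_eq, if_pos hi]
  set P0 := p.toOuterMeasure {x | ∀ j, j < J → x ∉ A j} with hP0
  have hmain : m ^ 2 * P0 + 2 * m * m ≤ (m + m ^ 2) + m ^ 2 := by
    have e1 : ∑' x, p x * ((if Z x = 0 then m ^ 2 else 0) + 2 * m * (Z x : ℝ≥0∞)) =
        m ^ 2 * P0 + 2 * m * m := by
      have e2 : ∀ x, p x * ((if Z x = 0 then m ^ 2 else 0) + 2 * m * (Z x : ℝ≥0∞)) =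
          m ^ 2 * (p x * (if x ∈ {x | ∀ j, j < J → x ∉ A j} then 1 else 0)) +
            2 * m * (p x * (Z x : ℝ≥0∞)) := by
        intro x
        have h0 : (Z x = 0) ↔ x ∈ {x | ∀ j, j < J → x ∉ A j} := by
          simp only [hZdef, Finset.card_eq_zero, Finset.filter_eq_empty_iff, Finset.mem_range,
            Set.mem_ofPred_eq]
        rw [if_congr h0 rfl rfl]
        split_ifs <;> ring
      simp only [e2]
      rw [ENNReal.tsum_add, ENNReal.tsum_mul_left, ENNReal.tsum_mul_left, EZ, hP0, hP]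
      congr!
    have e3 : ∑' x, p x * ((Z x : ℝ≥0∞) ^ 2 + m ^ 2) ≤ (m + m ^ 2) + m ^ 2 := by
      simp only [mul_add]
      rw [ENNReal.tsum_add, ENNReal.tsum_mul_right, p.tsum_coe, one_mul]
      gcongr
    rw [← e1]
    refine le_trans (ENNReal.tsum_le_tsum fun x => ?_) e3
    exact mul_le_mul' le_rfl (H3.key m hmtop (Z x))
  have hmb : ENNReal.ofReal (J * b) ≤ m := by
    calc ENNReal.ofReal (J * b) = ∑ j ∈ Finset.range J, ENNReal.ofReal b := by
          rw [Finset.sum_const, Finset.card_range, nsmul_eq_mul, ENNReal.ofReal_mul (by positivity),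
            ENNReal.ofReal_natCast]
      _ ≤ m := Finset.sum_le_sum fun j hj => hA j (Finset.mem_range.1 hj)
  have hJb : 0 < (J : ℝ) * b := by
    have : (0 : ℝ) < J := by exact_mod_cast hJ
    positivity
  have hP0top : P0 ≠ ⊤ := (lt_of_le_of_lt (hle1 _) ENNReal.one_lt_top).ne
  clear_value m P0
  lift m to NNReal using hmtop
  lift P0 to NNReal using hP0top
  have h1 : (m : ℝ) ^ 2 * P0 + 2 * m * m ≤ (m + (m : ℝ) ^ 2) + (m : ℝ) ^ 2 := by
    exact_mod_cast hmain
  have h2 : (J : ℝ) * b ≤ m := by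
    rw [← ENNReal.ofReal_coe_nnreal, ENNReal.ofReal_le_ofReal_iff (by positivity)] at hmb
    exact hmb
  have hmpos : (0 : ℝ) < m := lt_of_lt_of_le hJb h2
  have h3 : (P0 : ℝ) ≤ 1 / (J * b) := by
    rw [le_div_iff₀ hJb]
    have h4 : (m : ℝ) * P0 ≤ 1 := by
      by_contra hcon
      push Not at hcon
      nlinarith
    have h5 : (0 : ℝ) ≤ P0 := P0.2
    nlinarith
  rw [← ENNReal.ofReal_coe_nnreal]
  exact ENNReal.ofReal_le_ofReal h3

theorem H3.disj (N M J : ℕ) [NeZero N] (hM : 1 ≤ M) (hN : N = 2 * M * J)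
    (i j : ℕ) (hi : i < J) (hj : j < J) (hij : i ≠ j) (q : ℕ) (hq : q < M) :
    Disjoint (win (((2 * M * i : ℕ) : ZMod N)) q) (win (((2 * M * j : ℕ) : ZMod N)) q) := by
  rw [Finset.disjoint_left]
  intro x hx hx'
  simp only [win, Finset.mem_image, Finset.mem_Icc] at hx hx'
  obtain ⟨t, ⟨ht1, ht2⟩, htx⟩ := hx
  obtain ⟨s, ⟨hs1, hs2⟩, hsx⟩ := hx'
  have h1 : (((2 * M * i : ℕ) : ℤ) + t : ℤ) ≡ (((2 * M * j : ℕ) : ℤ) + s : ℤ) [ZMOD N] := by
    rw [← ZMod.intCast_eq_intCast_iff]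
    push_cast at htx hsx ⊢
    rw [htx, hsx]
  have h2 : (N : ℤ) ∣ (((2 * M * j : ℕ) : ℤ) + s) - (((2 * M * i : ℕ) : ℤ) + t) := h1.dvd
  have h3 : ((2 * M : ℕ) : ℤ) ∣ s - t := by
    have h4 : ((2 * M : ℕ) : ℤ) ∣ (N : ℤ) := by
      rw [hN]; exact_mod_cast Dvd.intro _ rfl
    have h5 := h4.trans h2
    have h6 : ((2 * M : ℕ) : ℤ) ∣ ((2 * M * j : ℕ) : ℤ) - ((2 * M * i : ℕ) : ℤ) := by
      push_cast
      exact ⟨(j : ℤ) - i, by ring⟩
    have h7 := dvd_sub h5 h6
    have h8 : (((2 * M * j : ℕ) : ℤ) + s) - (((2 * M * i : ℕ) : ℤ) + t) -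
      (((2 * M * j : ℕ) : ℤ) - ((2 * M * i : ℕ) : ℤ)) = s - t := by ring
    rwa [h8] at h7
  have h4 : s - t = 0 := by
    refine Int.eq_zero_of_abs_lt_dvd h3 ?_
    rw [abs_lt]
    have : (q : ℤ) < M := by exact_mod_cast hq
    push_cast
    constructor <;> linarith
  have hst : s = t := by linarith
  subst hst
  have h5 : ((2 * M : ℕ) : ℤ) * (J : ℤ) ∣ ((2 * M : ℕ) : ℤ) * ((j : ℤ) - i) := by
    have e : (((2 * M * j : ℕ) : ℤ) + s) - (((2 * M * i : ℕ) : ℤ) + s) =
      ((2 * M : ℕ) : ℤ) * ((j : ℤ) - i) := by push_cast; ring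
    rw [e, hN] at h2
    exact_mod_cast h2
  have h6 : (J : ℤ) ∣ (j : ℤ) - i := by
    refine Int.dvd_of_mul_dvd_mul_left ?_ h5
    exact_mod_cast (by omega : 2 * M ≠ 0)
  have h7 : (j : ℤ) - i = 0 := by
    refine Int.eq_zero_of_abs_lt_dvd h6 ?_
    rw [abs_lt]
    constructor <;> omega
  omega

theorem sH (h2 : S_H2) (h3 : S_H3) : S_H := by
  intro N k κ M J _ _ ns b hM hJ hN hns hb hA
  set p := periods (ZMod N × Fin k) ns with hp
  have := h3 _ p J (fun j => {ls | Good κ (((2 * M * j : ℕ) : ZMod N)) ls}) b hb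
    (fun j _ => hA _) ?_ hJ
  · refine le_trans ?_ this
    refine p.toOuterMeasure.mono ?_
    intro x hx j _
    exact hx _
  · intro i j hi hj hij
    exact h2 N k κ _ _ ns (fun q hq => H3.disj N M J hM hN i j hi hj hij q (hns ▸ hq))

end Pool.Agent.R88.LS
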