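import Pool.Agent.R88.LS.Stm

/-!
# Piece I of project LS (MP_d24e49_pr): the graph `C_N □ K_k`
-/

set_option autoImplicit false

namespace Pool.Agent.R88.LS

namespace I

theorem one_ne {N : ℕ} (hN : 3 ≤ N) (i : ZMod N) : i ≠ i + 1 := by
  have : Fact (1 < N) := ⟨by omega⟩
  intro h
  have : (1 : ZMod N) = 0 := by
    have := congrArg (fun x => x - i) h
    simp at this
  exact one_ne_zero this

theorem adj_right {N k : ℕ} (hN : 3 ≤ N) (i : ZMod N) (a : Fin k) :
    (gr N k).Adj (i, a) (i + 1, a) :=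
  Or.inr ⟨rfl, one_ne hN i, Or.inl rfl⟩

theorem adj_clique {N k : ℕ} (i : ZMod N) (a b : Fin k) (h : a ≠ b) :
    (gr N k).Adj (i, a) (i, b) :=
  Or.inl ⟨rfl, h⟩

/-- walk of length `n` to the right -/
theorem walk_right {N k : ℕ} (hN : 3 ≤ N) (i : ZMod N) (a : Fin k) (n : ℕ) :
    ∃ p : (gr N k).Walk (i, a) (i + (n : ZMod N), a), p.length = n := by
  induction n with
  | zero =>
    have e : (i + ((0 : ℕ) : ZMod N), a) = (i, a) := by simp
    rw [e]
    exact ⟨SimpleGraph.Walk.nil, rfl⟩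
  | succ n ih =>
    obtain ⟨p, hp⟩ := ih
    have e : (i + ((n + 1 : ℕ) : ZMod N), a) = ((i + (n : ZMod N)) + 1, a) := by
      push_cast; rw [add_assoc]
    rw [e]
    exact ⟨p.concat (adj_right hN _ a), by simp [hp]⟩

/-- walk of length `n + 1` at most, to the vertex `(i + n, b)` -/
theorem walk_right' {N k : ℕ} (hN : 3 ≤ N) (i : ZMod N) (a b : Fin k) (n : ℕ) :
    ∃ p : (gr N k).Walk (i, a) (i + (n : ZMod N), b), p.length ≤ n + 1 := by
  obtain ⟨p, hp⟩ := walk_right hN i a n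
  by_cases h : a = b
  · subst h
    exact ⟨p, by omega⟩
  · exact ⟨p.concat (adj_clique _ a b h), by simp [hp]⟩

theorem conn (N k : ℕ) [NeZero N] (hN : 3 ≤ N) (hk : 2 ≤ k) : (gr N k).Connected := by
  have : Nonempty (ZMod N × Fin k) := ⟨(0, ⟨0, by omega⟩)⟩
  refine SimpleGraph.Connected.mk ?_
  rintro ⟨i, a⟩ ⟨j, b⟩
  obtain ⟨p, -⟩ := walk_right' hN i a b (j - i).val
  have e : i + (((j - i).val : ℕ) : ZMod N) = j := by
    rw [ZMod.natCast_zmod_val]; ring
  rw [e] at p
  exact ⟨p⟩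

theorem vtrans (N k : ℕ) : VTrans (gr N k) := by
  rintro ⟨i, a⟩ ⟨j, b⟩
  refine ⟨⟨(Equiv.addRight (j - i)).prodCongr (Equiv.swap a b), ?_⟩, ?_⟩
  · rintro ⟨x, c⟩ ⟨y, d⟩
    simp only [Equiv.prodCongr_apply, Prod.map_apply, Equiv.coe_addRight, gr,
      EmbeddingLike.apply_eq_iff_eq, add_left_inj, ne_eq]
    have e1 : (y + (j - i) = x + (j - i) + 1) ↔ y = x + 1 := by
      constructor
      · intro h
        have := congrArg (fun z => z - (j - i)) h
        simp only [add_sub_cancel_right] at this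
        rw [this]; ring
      · rintro rfl; ring
    have e2 : (x + (j - i) = y + (j - i) + 1) ↔ x = y + 1 := by
      constructor
      · intro h
        have := congrArg (fun z => z - (j - i)) h
        simp only [add_sub_cancel_right] at this
        rw [this]; ring
      · rintro rfl; ring
    rw [e1, e2]
  · show ((Equiv.addRight (j - i)).prodCongr (Equiv.swap a b)) (i, a) = (j, b)
    simp

/-- a walk of length `r` moves the column by at most `r` -/
theorem walk_col {N k : ℕ} {u v : ZMod N × Fin k} (p : (gr N k).Walk u v) :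
    ∃ t : ℤ, |t| ≤ (p.length : ℤ) ∧ v.1 = u.1 + (t : ZMod N) := by
  induction p with
  | nil => exact ⟨0, by simp, by simp⟩
  | @cons u v w h p ih =>
    obtain ⟨t, ht, e⟩ := ih
    rw [SimpleGraph.Walk.length_cons]
    have h' : (u.1 = v.1 ∧ u.2 ≠ v.2) ∨
      (u.2 = v.2 ∧ u.1 ≠ v.1 ∧ (v.1 = u.1 + 1 ∨ u.1 = v.1 + 1)) := h
    push_cast
    rcases h' with ⟨h1, -⟩ | ⟨-, -, h3 | h3⟩
    · refine ⟨t, by linarith, ?_⟩
      rw [e, h1]
    · refine ⟨t + 1, ?_, ?_⟩
      · have := abs_add_le t 1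
        rw [abs_one] at this
        linarith
      · rw [e, h3]; push_cast; ring
    · refine ⟨t - 1, ?_, ?_⟩
      · have := abs_sub t 1
        rw [abs_one] at this
        linarith
      · rw [e, h3]; push_cast; ring

theorem card_ball_le (N k : ℕ) [NeZero N] (hN : 3 ≤ N) (hk : 2 ≤ k) (u : ZMod N × Fin k) (r : ℕ) :
    (ball (gr N k) u r).card ≤ (2 * r + 1) * k := by
  classical
  have hsub : ball (gr N k) u r ⊆
      ((Finset.Icc (-(r : ℤ)) r) ×ˢ (Finset.univ : Finset (Fin k))).image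
        (fun q : ℤ × Fin k => (u.1 + (q.1 : ZMod N), q.2)) := by
    intro v hv
    simp only [ball, Finset.mem_filter, Finset.mem_univ, true_and] at hv
    obtain ⟨p, hp⟩ := (conn N k hN hk).exists_walk_length_eq_dist u v
    obtain ⟨t, ht, e⟩ := walk_col p
    rw [Finset.mem_image]
    refine ⟨(t, v.2), ?_, ?_⟩
    · rw [Finset.mem_product, Finset.mem_Icc]
      have h2 : |t| ≤ (r : ℤ) := ht.trans (by rw [hp]; exact_mod_cast hv)
      exact ⟨abs_le.1 h2, Finset.mem_univ _⟩
    · exact Prod.ext e.symm rfl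
  refine (Finset.card_le_card hsub).trans (Finset.card_image_le.trans ?_)
  rw [Finset.card_product, Int.card_Icc, Finset.card_univ, Fintype.card_fin]
  apply le_of_eq
  congr 1
  omega

theorem le_card_ball (N k r : ℕ) [NeZero N] (hN : 3 ≤ N) (hr : 1 ≤ r) (hrN : 2 * r - 1 ≤ N)
    (u : ZMod N × Fin k) : (2 * r - 1) * k ≤ (ball (gr N k) u r).card := by
  classical
  obtain ⟨i, a⟩ := u
  have hsub : ((Finset.Icc (-((r : ℤ) - 1)) (r - 1)) ×ˢ (Finset.univ : Finset (Fin k))).image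
        (fun q : ℤ × Fin k => (i + (q.1 : ZMod N), q.2)) ⊆ ball (gr N k) (i, a) r := by
    intro v hv
    rw [Finset.mem_image] at hv
    obtain ⟨⟨t, b⟩, htb, rfl⟩ := hv
    rw [Finset.mem_product, Finset.mem_Icc] at htb
    obtain ⟨⟨h1, h2⟩, -⟩ := htb
    simp only [ball, Finset.mem_filter, Finset.mem_univ, true_and]
    dsimp only at h1 h2 ⊢
    rcases le_total 0 t with h0 | h0
    · obtain ⟨n, rfl⟩ := Int.eq_ofNat_of_zero_le h0
      obtain ⟨p, hp⟩ := walk_right' hN i a b n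
      have e : (((n : ℤ) : ZMod N)) = (n : ZMod N) := by push_cast; rfl
      rw [e]
      have := SimpleGraph.dist_le p
      omega
    · obtain ⟨n, hn⟩ := Int.eq_ofNat_of_zero_le (neg_nonneg.2 h0)
      have ht : t = -(n : ℤ) := by omega
      subst ht
      obtain ⟨p, hp⟩ := walk_right' hN (i + ((-(n : ℤ) : ℤ) : ZMod N)) b a n
      have e : i + ((-(n : ℤ) : ℤ) : ZMod N) + (n : ZMod N) = i := by push_cast; ring
      have h5 := (SimpleGraph.dist_le p).trans hp
      rw [e, SimpleGraph.dist_comm] at h5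
      omega
  have hinj : Set.InjOn (fun q : ℤ × Fin k => (i + (q.1 : ZMod N), q.2))
      (((Finset.Icc (-((r : ℤ) - 1)) (r - 1)) ×ˢ (Finset.univ : Finset (Fin k)) : Finset _) :
        Set (ℤ × Fin k)) := by
    rintro ⟨t, b⟩ ht ⟨s, c⟩ hs h
    rw [Finset.mem_coe, Finset.mem_product, Finset.mem_Icc] at ht hs
    simp only [Prod.mk.injEq, add_right_inj] at h
    obtain ⟨h1, h2⟩ := h
    refine Prod.ext ?_ h2
    have h3 := (ZMod.intCast_eq_intCast_iff _ _ _).1 h1
    have h4 : (N : ℤ) ∣ s - t := h3.dvd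
    have h5 : s - t = 0 := by
      refine Int.eq_zero_of_abs_lt_dvd h4 ?_
      rw [abs_lt]
      dsimp only at ht hs
      constructor <;> omega
    show t = s
    omega
  have := Finset.card_le_card hsub
  rw [Finset.card_image_of_injOn hinj, Finset.card_product, Int.card_Icc, Finset.card_univ,
    Fintype.card_fin] at this
  have e : ((r : ℤ) - 1 + 1 - -((r : ℤ) - 1)).toNat = 2 * r - 1 := by omega
  rwa [e] at this

end I

theorem sI1 : S_I1 := by
  intro N k _ hN hk
  exact ⟨I.conn N k hN hk, I.vtrans N k⟩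

theorem sI2 : S_I2 := by
  intro N k r _ hN hk hr hrN hlog
  unfold R2
  refine Nat.sInf_le ?_
  intro u
  rw [Fintype.card_prod, ZMod.card, Fintype.card_fin]
  push_cast
  refine hlog.trans ?_
  refine mul_le_mul_of_nonneg_left ?_ (by positivity)
  have := I.le_card_ball N k r hN hr hrN u
  have h2 : (((2 * r - 1) * k : ℕ) : ℝ) ≤ ((ball (gr N k) u r).card : ℝ) := by exact_mod_cast this
  rw [Nat.cast_mul, Nat.cast_sub (by omega)] at h2
  push_cast at h2
  exact h2

theorem sI3 : S_I3 := by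
  intro N k _ hN hk
  have hne : {r : ℕ | ∀ u : ZMod N × Fin k, Real.log (Fintype.card (ZMod N × Fin k)) ≤
      (r : ℝ) * ((ball (gr N k) u r).card : ℝ)}.Nonempty := by
    refine ⟨Fintype.card (ZMod N × Fin k), fun u => ?_⟩
    have h1 : 1 ≤ (ball (gr N k) u (Fintype.card (ZMod N × Fin k))).card := by
      refine Finset.card_pos.2 ⟨u, ?_⟩
      simp [ball]
    have h1' : (1 : ℝ) ≤ ((ball (gr N k) u (Fintype.card (ZMod N × Fin k))).card : ℝ) := by
      exact_mod_cast h1
    have h2 : Real.log (Fintype.card (ZMod N × Fin k)) ≤ (Fintype.card (ZMod N × Fin k) : ℝ) := by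
      refine (Real.log_le_self (by positivity))
    have h3 : (0 : ℝ) ≤ (Fintype.card (ZMod N × Fin k) : ℝ) := by positivity
    nlinarith
  have hmem := Nat.sInf_mem hne
  have hx : Real.log ((Fintype.card (ZMod N × Fin k) : ℕ) : ℝ) ≤ (R2 (gr N k) : ℝ) *
      ((ball (gr N k) ((0 : ZMod N), (⟨0, by omega⟩ : Fin k)) (R2 (gr N k))).card : ℝ) :=
    hmem ((0 : ZMod N), (⟨0, by omega⟩ : Fin k))
  rw [Fintype.card_prod, ZMod.card, Fintype.card_fin, Nat.cast_mul] at hx
  have h : (ball (gr N k) ((0 : ZMod N), (⟨0, by omega⟩ : Fin k)) (R2 (gr N k))).card ≤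
      (2 * R2 (gr N k) + 1) * k := I.card_ball_le N k hN hk _ _
  have h1 : ((ball (gr N k) ((0 : ZMod N), (⟨0, by omega⟩ : Fin k)) (R2 (gr N k))).card : ℝ) ≤
      (2 * (R2 (gr N k) : ℝ) + 1) * k := by exact_mod_cast h
  have h0 : (0 : ℝ) ≤ (R2 (gr N k) : ℝ) := Nat.cast_nonneg _
  exact hx.trans (mul_le_mul_of_nonneg_left h1 h0)

end Pool.Agent.R88.LS
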