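import Pool.Agent.R88.LS.Stm

/-!
# Piece K: choice of the parameters
-/

set_option autoImplicit false

namespace Pool.Agent.R88.LS

open Filter Topology

namespace KAux

theorem ev_pow (A : ℝ) (n : ℕ) : ∀ᶠ x : ℝ in atTop, A * x ^ n ≤ Real.exp x := by
  have h := (Real.isLittleO_pow_exp_atTop (n := n)).const_mul_left A
  filter_upwards [h.bound (c := 1) one_pos] with x hx
  rw [one_mul, Real.norm_eq_abs, Real.norm_eq_abs, abs_of_pos (Real.exp_pos x)] at hx
  exact (le_abs_self _).trans hx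

theorem ev_log (A : ℝ) : ∀ᶠ x : ℝ in atTop, A * (1 + Real.log x) ≤ x := by
  have h := Real.isLittleO_log_id_atTop.const_mul_left A
  filter_upwards [h.bound (c := 1 / 2) (by norm_num), eventually_ge_atTop (2 * A),
    eventually_gt_atTop 0] with x hx h2 h3
  rw [Real.norm_eq_abs, Real.norm_eq_abs, id, abs_of_pos h3] at hx
  have h4 := (le_abs_self _).trans hx
  linarith

/-- upper bound of the factorial -/
theorem fact_le (n : ℕ) (hn : 1 ≤ n) :
    ((n.factorial : ℕ) : ℝ) ≤ (n : ℝ) ^ (n + 1) * Real.exp (1 - n) := by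
  induction n, hn using Nat.le_induction with
  | base => simp
  | succ n hn ih =>
    have hn' : (0 : ℝ) < n := by exact_mod_cast hn
    rw [Nat.factorial_succ]
    push_cast
    have h1 : (n : ℝ) ^ (n + 1) * Real.exp 1 ≤ ((n : ℝ) + 1) ^ (n + 1) := by
      have h2 : Real.exp 1 ≤ (((n : ℝ) + 1) / n) ^ (n + 1) := by
        have h3 : (1 : ℝ) / (n + 1) ≤ Real.log (((n : ℝ) + 1) / n) := by
          have h4 := Real.one_sub_inv_le_log_of_pos (show (0 : ℝ) < ((n : ℝ) + 1) / n by positivity)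
          refine le_trans (le_of_eq ?_) h4
          field_simp
          ring
        have h5 : Real.exp 1 ≤ Real.exp ((n + 1 : ℕ) * Real.log (((n : ℝ) + 1) / n)) := by
          apply Real.exp_le_exp.2
          have h6 : (0 : ℝ) < (n : ℝ) + 1 := by positivity
          rw [div_le_iff₀ h6] at h3
          push_cast
          linarith
        refine h5.trans (le_of_eq ?_)
        rw [Real.exp_nat_mul, Real.exp_log (by positivity)]
      rw [div_pow, le_div_iff₀ (by positivity)] at h2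
      linarith
    have h2 : Real.exp (1 - n) = Real.exp 1 * Real.exp (1 - (n + 1)) := by
      rw [← Real.exp_add]
      congr 1
      ring
    calc ((n : ℝ) + 1) * (n.factorial : ℝ) ≤ ((n : ℝ) + 1) * ((n : ℝ) ^ (n + 1) * Real.exp (1 - n)) :=
          mul_le_mul_of_nonneg_left ih (by positivity)
      _ = ((n : ℝ) + 1) * ((n : ℝ) ^ (n + 1) * Real.exp 1) * Real.exp (1 - (n + 1)) := by
          rw [h2]
          ring
      _ ≤ ((n : ℝ) + 1) * (((n : ℝ) + 1) ^ (n + 1)) * Real.exp (1 - (n + 1)) := by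
          apply mul_le_mul_of_nonneg_right _ (Real.exp_pos _).le
          exact mul_le_mul_of_nonneg_left h1 (by positivity)
      _ = ((n : ℝ) + 1) ^ (n + 1 + 1) * Real.exp (1 - (n + 1)) := by ring

/-- lower bound of the Poisson weight -/
theorem poi (κ : ℕ) (hκ : 1 ≤ κ) (ν : ℝ) (hν : 0 < ν) :
    Real.exp (-(κ - ν) ^ 2 / ν) / (Real.exp 1 * κ) ≤ ν ^ κ * Real.exp (-ν) / (κ.factorial : ℝ) := by
  have hκ' : (0 : ℝ) < κ := by exact_mod_cast hκ
  have h1 := fact_le κ hκ
  have hf : (0 : ℝ) < (κ.factorial : ℝ) := by exact_mod_cast κ.factorial_pos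
  have h2 : Real.exp (-(κ - ν) ^ 2 / ν) ≤ (ν / κ) ^ κ * Real.exp (κ - ν) := by
    have h3 : (ν / κ) ^ κ = Real.exp (κ * Real.log (ν / κ)) := by
      rw [Real.exp_nat_mul, Real.exp_log (by positivity)]
    rw [h3, ← Real.exp_add]
    apply Real.exp_le_exp.2
    have h4 := Real.one_sub_inv_le_log_of_pos (show (0 : ℝ) < ν / κ by positivity)
    have h5 := mul_le_mul_of_nonneg_left h4 hκ'.le
    refine le_trans (le_of_eq ?_) (add_le_add_left h5 (κ - ν))
    field_simp
    ring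
  rw [div_le_div_iff₀ (by positivity) hf]
  calc Real.exp (-(κ - ν) ^ 2 / ν) * (κ.factorial : ℝ)
      ≤ ((ν / κ) ^ κ * Real.exp (κ - ν)) * ((κ : ℝ) ^ (κ + 1) * Real.exp (1 - κ)) :=
        mul_le_mul h2 h1 hf.le (by positivity)
    _ = ν ^ κ * Real.exp (-ν) * (Real.exp 1 * κ) := by
        rw [div_pow, pow_succ]
        have h6 : Real.exp (κ - ν) * Real.exp (1 - κ) = Real.exp (-ν) * Real.exp 1 := by
          rw [← Real.exp_add, ← Real.exp_add]
          congr 1
          ring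
        have h7 : (κ : ℝ) ^ κ ≠ 0 := by positivity
        calc ν ^ κ / (κ : ℝ) ^ κ * Real.exp (κ - ν) * ((κ : ℝ) ^ κ * κ * Real.exp (1 - κ))
            = ν ^ κ * κ * (Real.exp (κ - ν) * Real.exp (1 - κ)) * ((κ : ℝ) ^ κ / (κ : ℝ) ^ κ) := by
              ring
          _ = _ := by
              rw [div_self h7, h6]
              ring

/-- one factor -/
theorem factor (M k g q : ℕ) (hq : q < M) (hk : 1 ≤ k) (hdiv : 2 * (q + 1) ∣ k)
    (hg : (g : ℝ) ≤ k / (2 * (q + 1))) :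
    Real.exp (-(4 * k / (q + 1))) / (4 * (6 * (k : ℝ)) ^ (2 * M)) ≤
      (1 / 4) * ((nu k q : ℝ) ^ (k + g) * Real.exp (-(nu k q : ℝ)) /
        ((k + g).factorial : ℝ)) ^ (2 * q + 1) := by
  have hk' : (1 : ℝ) ≤ k := by exact_mod_cast hk
  have hq0 : (0 : ℝ) ≤ q := Nat.cast_nonneg q
  obtain ⟨j, hj⟩ := hdiv
  have hjr : (k : ℝ) = 2 * (q + 1) * j := by exact_mod_cast hj
  have hj0 : (0 : ℝ) < j := by
    rcases Nat.eq_zero_or_pos j with h | h
    · subst h
      omega
    · exact_mod_cast h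
  have hjk : j ≤ k := by
    rw [hj]
    nlinarith
  have hnu : (nu k q : ℝ) = k - j := by
    unfold nu
    have h1 : k / (2 * (q + 1)) = j := by
      rw [hj]
      exact Nat.mul_div_cancel_left j (by omega)
    rw [h1]
    exact Nat.cast_sub hjk
  have hg' : (g : ℝ) ≤ j := by
    refine hg.trans (le_of_eq ?_)
    rw [hjr]
    field_simp
  have hj2 : (2 : ℝ) * j ≤ k := by
    rw [hjr]
    nlinarith [mul_nonneg hq0 hj0.le]
  have hν : (0 : ℝ) < (nu k q : ℝ) := by
    rw [hnu]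
    linarith
  have hg0 : (0 : ℝ) ≤ g := Nat.cast_nonneg g
  have hp := poi (k + g) (by omega) (nu k q : ℝ) hν
  have hb : Real.exp (-(8 * (j : ℝ) ^ 2 / k)) / (6 * k) ≤
      (nu k q : ℝ) ^ (k + g) * Real.exp (-(nu k q : ℝ)) / ((k + g).factorial : ℝ) := by
    refine le_trans ?_ hp
    have h1 : Real.exp (-(8 * (j : ℝ) ^ 2 / k)) ≤
        Real.exp (-(((k + g : ℕ) : ℝ) - (nu k q : ℝ)) ^ 2 / (nu k q : ℝ)) := by
      apply Real.exp_le_exp.2
      rw [neg_div]
      apply neg_le_neg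
      rw [div_le_div_iff₀ hν (by linarith), hnu]
      push_cast
      have h2 : ((k : ℝ) + g - (k - j)) ^ 2 ≤ (2 * j) ^ 2 :=
        pow_le_pow_left₀ (by linarith) (by linarith) 2
      have h3 : ((k : ℝ) + g - (k - j)) ^ 2 * k ≤ (2 * j) ^ 2 * k :=
        mul_le_mul_of_nonneg_right h2 (by linarith)
      have h4 : (2 * (j : ℝ)) ^ 2 * k ≤ 8 * j ^ 2 * (k - j) := by
        have : 0 ≤ (j : ℝ) ^ 2 * (k - 2 * j) := mul_nonneg (by positivity) (by linarith)
        nlinarith
      linarith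
    apply div_le_div₀ (Real.exp_pos _).le h1 (by positivity)
    have h2 : Real.exp 1 ≤ 3 := by
      have := Real.exp_one_lt_d9
      linarith
    have h3 : ((k + g : ℕ) : ℝ) ≤ 2 * k := by
      push_cast
      linarith
    calc Real.exp 1 * ((k + g : ℕ) : ℝ) ≤ 3 * (2 * k) :=
          mul_le_mul h2 h3 (Nat.cast_nonneg _) (by norm_num)
      _ = 6 * k := by ring
  have hpow := pow_le_pow_left₀ (by positivity) hb (2 * q + 1)
  rw [div_pow, ← Real.exp_nat_mul] at hpow
  have h1 : Real.exp (-(4 * k / (q + 1))) ≤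
      Real.exp (((2 * q + 1 : ℕ) : ℝ) * (-(8 * (j : ℝ) ^ 2 / k))) := by
    apply Real.exp_le_exp.2
    rw [mul_neg]
    apply neg_le_neg
    push_cast
    have h2 : (8 : ℝ) * j ^ 2 / k = 4 * j / (q + 1) := by
      rw [hjr]
      field_simp
      ring
    rw [h2, ← mul_div_assoc, hjr]
    apply div_le_div_of_nonneg_right _ (by positivity)
    nlinarith
  have h2 : (6 * (k : ℝ)) ^ (2 * q + 1) ≤ (6 * (k : ℝ)) ^ (2 * M) :=
    pow_le_pow_right₀ (by linarith) (by omega)
  calc Real.exp (-(4 * k / (q + 1))) / (4 * (6 * (k : ℝ)) ^ (2 * M))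
      = (1 / 4) * (Real.exp (-(4 * k / (q + 1))) / (6 * (k : ℝ)) ^ (2 * M)) := by
        field_simp
    _ ≤ (1 / 4) * (Real.exp (((2 * q + 1 : ℕ) : ℝ) * (-(8 * (j : ℝ) ^ 2 / k))) /
          (6 * (k : ℝ)) ^ (2 * q + 1)) := by
        apply mul_le_mul_of_nonneg_left _ (by norm_num)
        exact div_le_div₀ (Real.exp_pos _).le h1 (by positivity) h2
    _ ≤ _ := mul_le_mul_of_nonneg_left hpow (by norm_num)

theorem pw_ge (M k g : ℕ) (hk : 1 ≤ k) (hdiv : ∀ q < M, 2 * (q + 1) ∣ k)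
    (hg : ∀ q < M, (g : ℝ) ≤ k / (2 * (q + 1))) (m : ℕ) (hm : m ≤ M) :
    Real.exp (-(4 * k * (harmonic m : ℝ))) / (4 * (6 * (k : ℝ)) ^ (2 * M)) ^ m ≤ pw k (k + g) m := by
  have hk' : (1 : ℝ) ≤ k := by exact_mod_cast hk
  induction m with
  | zero => simp [pw]
  | succ m ih =>
    have h1 := ih (by omega)
    have h2 := factor M k g m (by omega) hk (hdiv m (by omega)) (hg m (by omega))
    have h3 : Real.exp (-(4 * k * (harmonic (m + 1) : ℝ))) / (4 * (6 * (k : ℝ)) ^ (2 * M)) ^ (m + 1) =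
        (Real.exp (-(4 * k / (m + 1))) / (4 * (6 * (k : ℝ)) ^ (2 * M))) *
        (Real.exp (-(4 * k * (harmonic m : ℝ))) / (4 * (6 * (k : ℝ)) ^ (2 * M)) ^ m) := by
      rw [div_mul_div_comm, ← Real.exp_add, pow_succ', harmonic_succ]
      congr 2
      push_cast
      ring
    rw [h3]
    show _ ≤ (1 / 4) * ((nu k m : ℝ) ^ (k + g) * Real.exp (-(nu k m : ℝ)) /
        ((k + g).factorial : ℝ)) ^ (2 * m + 1) * pw k (k + g) m
    exact mul_le_mul h2 h1 (by positivity) (by positivity)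

end KAux

open KAux

/-- Piece K -/
theorem sK : S_K := by
  intro M hM
  have hM' : (1 : ℝ) ≤ M := by exact_mod_cast hM
  -- the harmonic number
  obtain ⟨H, hH⟩ : ∃ H : ℝ, H = (harmonic M : ℝ) := ⟨_, rfl⟩
  have hH1 : 1 ≤ H := by
    rw [hH]
    obtain ⟨m, rfl⟩ : ∃ m, M = m + 1 := ⟨M - 1, by omega⟩
    have h1 : (1 : ℚ) ≤ harmonic (m + 1) := by
      unfold harmonic
      rw [Finset.sum_range_succ']
      have : (0 : ℚ) ≤ ∑ k ∈ Finset.range m, (((k + 1 : ℕ) : ℚ) + 1)⁻¹ :=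
        Finset.sum_nonneg fun i _ => by positivity
      push_cast at this ⊢
      simpa using this
    exact_mod_cast h1
  obtain ⟨A, hA⟩ : ∃ A : ℝ, A = M * (4 * 6 ^ (2 * M)) ^ M := ⟨_, rfl⟩
  have hten : Tendsto (fun t : ℕ => (((2 * M.factorial * t : ℕ) : ℝ))) atTop atTop := by
    apply tendsto_natCast_atTop_atTop.comp
    exact Filter.tendsto_id.const_mul_atTop' (by positivity)
  have hev := hten.eventually ((ev_pow (16 * M) 2).and ((ev_pow A (2 * M * M)).and
    ((ev_pow (4 * M) 1).and ((ev_log (4 * M ^ 4)).and (eventually_ge_atTop (max 2 (M : ℝ)))))))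
  obtain ⟨t, ht1, ht2, ht3, ht4, ht5⟩ := hev.exists
  obtain ⟨k, hk⟩ : ∃ k : ℕ, k = 2 * M.factorial * t := ⟨_, rfl⟩
  rw [← hk] at ht1 ht2 ht3 ht4 ht5
  have hk2 : 2 ≤ k := by
    have := (le_max_left _ _).trans ht5
    exact_mod_cast this
  have hkM : M ≤ k := by
    have := (le_max_right _ _).trans ht5
    exact_mod_cast this
  have hk' : (2 : ℝ) ≤ k := by exact_mod_cast hk2
  have hdiv : ∀ q < M, 2 * (q + 1) ∣ k := by
    intro q hq
    rw [hk, mul_assoc]
    apply mul_dvd_mul_left 2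
    exact Dvd.dvd.mul_right (Nat.dvd_factorial (by omega) (by omega)) t
  obtain ⟨g, hg⟩ : ∃ g : ℕ, k = 2 * M * g := by
    obtain ⟨g, hg⟩ := hdiv (M - 1) (by omega)
    refine ⟨g, ?_⟩
    rw [hg]
    congr 2
    omega
  have hgr : (k : ℝ) = 2 * M * g := by exact_mod_cast hg
  have hg1 : ∀ q < M, (g : ℝ) ≤ k / (2 * (q + 1)) := by
    intro q hq
    have hq' : (q : ℝ) + 1 ≤ M := by exact_mod_cast hq
    rw [le_div_iff₀ (by positivity), hgr]
    have : (0 : ℝ) ≤ g := Nat.cast_nonneg g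
    nlinarith
  have hgk : (g : ℝ) ≤ k := by
    rw [hgr]
    have : (0 : ℝ) ≤ g := Nat.cast_nonneg g
    nlinarith
  obtain ⟨J, hJ⟩ : ∃ J : ℕ, J = ⌈Real.exp (5 * k * H)⌉₊ := ⟨_, rfl⟩
  have hJ1 : Real.exp (5 * k * H) ≤ J := by
    rw [hJ]
    exact Nat.le_ceil _
  have hJ2 : (J : ℝ) ≤ Real.exp (5 * k * H) + 1 := by
    rw [hJ]
    exact (Nat.ceil_lt_add_one (Real.exp_pos _).le).le
  have hkH : (k : ℝ) ≤ k * H := by nlinarith
  have hJk : Real.exp k ≤ J := by
    refine le_trans (Real.exp_le_exp.2 ?_) hJ1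
    nlinarith
  have hJ10 : (10 : ℝ) ≤ J := by
    have h1 : (10 : ℝ) ≤ Real.exp (5 * k * H) := by
      have h2 := Real.add_one_le_exp (5 * k * H)
      nlinarith
    linarith
  have hJ0 : (0 : ℝ) < J := by linarith
  refine ⟨k, J, g, hk2, ?_, hkM, hdiv, ?_, ?_, ?_, ?_, ?_, ?_⟩
  · have : 10 ≤ J := by exact_mod_cast hJ10
    omega
  · intro q hq
    have hq' : (2 : ℝ) * q + 1 ≤ 2 * M := by
      have : 2 * q + 1 ≤ 2 * M := by omega
      exact_mod_cast this
    have hx : 16 * M * (k : ℝ) ^ 2 ≤ J := ht1.trans hJk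
    constructor
    · have h1 : (2 : ℝ) * ((2 * q + 1) * (k + g)) ^ 2 ≤ 2 * M * J := by
        have h2 : ((2 : ℝ) * q + 1) * (k + g) ≤ 2 * M * (2 * k) :=
          mul_le_mul hq' (by linarith) (by positivity) (by positivity)
        have h3 : (((2 : ℝ) * q + 1) * (k + g)) ^ 2 ≤ (2 * M * (2 * k)) ^ 2 :=
          pow_le_pow_left₀ (by positivity) h2 2
        have h4 := mul_le_mul_of_nonneg_left hx (show (0 : ℝ) ≤ 2 * M by positivity)
        nlinarith
      exact_mod_cast h1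
    · have hn : (nu k q : ℝ) ≤ k := by
        have : nu k q ≤ k := Nat.sub_le _ _
        exact_mod_cast this
      have h1 : (4 : ℝ) * (2 * q + 1) ^ 2 * nu k q ≤ 2 * M * J := by
        have h2 : ((2 : ℝ) * q + 1) ^ 2 ≤ (2 * M) ^ 2 := pow_le_pow_left₀ (by positivity) hq' 2
        have h3 : ((2 : ℝ) * q + 1) ^ 2 * nu k q ≤ (2 * M) ^ 2 * k :=
          mul_le_mul h2 hn (Nat.cast_nonneg _) (by positivity)
        have h4 := mul_le_mul_of_nonneg_left hx (show (0 : ℝ) ≤ 2 * M by positivity)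
        have h5 : (k : ℝ) ≤ k ^ 2 := by nlinarith
        have h6 : (M : ℝ) ^ 2 * k ≤ M ^ 2 * k ^ 2 := mul_le_mul_of_nonneg_left h5 (by positivity)
        nlinarith
      exact_mod_cast h1
  · -- the probability
    have h1 := pw_ge M k g (by omega) hdiv hg1 M le_rfl
    rw [← hH] at h1
    have h2 : (4 * (6 * (k : ℝ)) ^ (2 * M)) ^ M * M ≤ Real.exp (k * H) := by
      have h3 : (4 * (6 * (k : ℝ)) ^ (2 * M)) ^ M * M = A * (k : ℝ) ^ (2 * M * M) := by
        rw [hA, mul_pow 6 (k : ℝ) (2 * M), ← mul_assoc, mul_pow (4 * 6 ^ (2 * M)) _ M, ← pow_mul]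
        ring
      rw [h3]
      exact ht2.trans (Real.exp_le_exp.2 hkH)
    have h0 : (0 : ℝ) < (4 * (6 * (k : ℝ)) ^ (2 * M)) ^ M := by positivity
    calc (M : ℝ) ≤ Real.exp (k * H) / (4 * (6 * (k : ℝ)) ^ (2 * M)) ^ M := by
          rw [le_div_iff₀ h0]
          linarith
      _ = Real.exp (5 * k * H) * (Real.exp (-(4 * k * H)) / (4 * (6 * (k : ℝ)) ^ (2 * M)) ^ M) := by
          rw [← mul_div_assoc, ← Real.exp_add]
          congr 2
          ring
      _ ≤ J * pw k (k + g) M := mul_le_mul hJ1 h1 (by positivity) hJ0.le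
  · have h1 : (harmonic k : ℝ) ≤ 1 + Real.log k := harmonic_le_one_add_log k
    have h2 : (4 : ℝ) * M ^ 4 * (harmonic k : ℝ) ≤ k :=
      (mul_le_mul_of_nonneg_left h1 (by positivity)).trans ht4
    have hg0 : (0 : ℝ) < (g : ℝ) + 1 := by positivity
    rw [← mul_div_assoc, div_le_div_iff₀ hg0 (by linarith)]
    have h3 : (2 : ℝ) * M * (M ^ 2 * (2 * (harmonic k : ℝ)) * M) ≤ 2 * M * (1 * (g + 1)) := by
      rw [hgr] at h2
      nlinarith
    exact le_of_mul_le_mul_left h3 (by positivity)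
  · rw [← hH]
    have h1 : Real.exp (5 * k * H) ≤ ((2 * M * J : ℕ) : ℝ) * k := by
      push_cast
      have h2 : (1 : ℝ) * J ≤ (2 * M * k) * J :=
        mul_le_mul_of_nonneg_right (by nlinarith) hJ0.le
      linarith
    calc 5 * k * H = Real.log (Real.exp (5 * k * H)) := (Real.log_exp _).symm
      _ ≤ _ := Real.log_le_log (Real.exp_pos _) h1
  · rw [← hH]
    have h1 : ((2 * M * J : ℕ) : ℝ) * k ≤ Real.exp (6 * k * H) := by
      push_cast
      have h2 : (J : ℝ) ≤ 2 * Real.exp (5 * k * H) := by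
        have : (1 : ℝ) ≤ Real.exp (5 * k * H) := Real.one_le_exp (by positivity)
        linarith
      have h3 : 4 * M * (k : ℝ) ≤ Real.exp (k * H) := by
        rw [pow_one] at ht3
        exact ht3.trans (Real.exp_le_exp.2 hkH)
      calc (2 : ℝ) * M * J * k ≤ 2 * M * (2 * Real.exp (5 * k * H)) * k := by
            apply mul_le_mul_of_nonneg_right _ (by positivity)
            exact mul_le_mul_of_nonneg_left h2 (by positivity)
        _ = (4 * M * k) * Real.exp (5 * k * H) := by ring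
        _ ≤ Real.exp (k * H) * Real.exp (5 * k * H) :=
            mul_le_mul_of_nonneg_right h3 (Real.exp_pos _).le
        _ = Real.exp (6 * k * H) := by
            rw [← Real.exp_add]
            congr 1
            ring
    calc Real.log (((2 * M * J : ℕ) : ℝ) * k) ≤ Real.log (Real.exp (6 * k * H)) := by
          apply Real.log_le_log _ h1
          push_cast
          positivity
      _ = 6 * k * H := Real.log_exp _
  · have : 10 ≤ J := by exact_mod_cast hJ10
    nlinarith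

end Pool.Agent.R88.LS
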