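import Pool.Agent.R88.LS.Defs

/-!
# Statements of the pieces of project LS (MP_d24e49_pr)
-/

set_option autoImplicit false

namespace Pool.Agent.R88.LS

open scoped ENNReal

/-! ### Piece A: general facts on the process -/

open Classical in
/-- A1: the defining recursion of `place`. -/
def S_A1 : Prop := ∀ (V : Type) [Fintype V] [DecidableEq V] (G : SimpleGraph V) (X : V → ℕ) (v : V),
  (∀ h : ∃ w, G.Adj v w ∧ X w < X v, place G X v =
    (PMF.uniformOfFinset (minNbr G X v)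
        (minNbr_nonempty G X v ⟨h.choose, h.choose_spec.1⟩)).bind (fun w => place G X w)) ∧
  ((¬ ∃ w, G.Adj v w ∧ X w < X v) → place G X v = PMF.pure v)

/-- A2: the final vertex has no neighbour of smaller load. -/
def S_A2 : Prop := ∀ (V : Type) [Fintype V] [DecidableEq V] (G : SimpleGraph V) (X : V → ℕ)
  (v w : V), w ∈ (place G X v).support → ∀ z, G.Adj w z → X w ≤ X z

/-- A3: `run` preserves the Lipschitz property and raises loads. -/
def S_A3 : Prop := ∀ (V : Type) [Fintype V] [DecidableEq V] (G : SimpleGraph V) (l : List V)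
  (X Y : V → ℕ), Y ∈ (run G l X).support → (Lip G X → Lip G Y) ∧ (∀ v, X v ≤ Y v)

/-- A4: `alloc` in terms of the birth sequence in periods. -/
def S_A4 : Prop := ∀ (V : Type) [Fintype V] [DecidableEq V] [Nonempty V] (G : SimpleGraph V)
  (ns : List ℕ), alloc G ns.sum =
    (periods V ns).bind (fun ls => run G ls.flatten (fun _ => 0))

/-! ### Piece B: one ball in a column with holes -/

def S_B : Prop := ∀ (N k : ℕ) [NeZero N], 3 ≤ N → ∀ (X : ZMod N × Fin k → ℕ) (i : ZMod N) (v : ℕ),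
  Lip (gr N k) X → (∀ a, v ≤ X (i, a)) → (∀ a, v ≤ X (i + 1, a)) → (∀ a, v ≤ X (i - 1, a)) →
  1 ≤ (holes X i v).card → ∀ a : Fin k,
  (place (gr N k) X (i, a)).toOuterMeasure {w | ¬ (w.1 = i ∧ X w = v)} ≤
    2 / (((holes X i v).card : ℝ≥0∞) + 2)

/-! ### Piece C: filling one level of one column -/

def S_C : Prop := ∀ (N k g : ℕ) [NeZero N], 3 ≤ N → ∀ (X : ZMod N × Fin k → ℕ) (i : ZMod N)
  (v : ℕ) (l : List (ZMod N × Fin k)),
  Lip (gr N k) X → (∀ a, v ≤ X (i, a)) → (∀ a, v ≤ X (i + 1, a)) → (∀ a, v ≤ X (i - 1, a)) →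
  k + g ≤ cnt i l →
  (run (gr N k) l X).toOuterMeasure {Y | ∃ a, Y (i, a) ≤ v} ≤
    ENNReal.ofReal (2 * (harmonic k : ℝ) / (g + 1))

/-! ### Piece D: the pyramid -/

def S_D : Prop := ∀ (N k g : ℕ) [NeZero N], 3 ≤ N → ∀ (c : ZMod N)
  (ls : List (List (ZMod N × Fin k))) (X : ZMod N × Fin k → ℕ) (v : ℕ),
  Lip (gr N k) X → (∀ t : ℤ, |t| ≤ (ls.length : ℤ) → ∀ a, v ≤ X (c + (t : ZMod N), a)) →
  Good (k + g) c ls →
  (run (gr N k) ls.flatten X).toOuterMeasure {Y | ∃ a, Y (c, a) < v + ls.length} ≤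
    (ls.length : ℝ≥0∞) ^ 2 * ENNReal.ofReal (2 * (harmonic k : ℝ) / (g + 1))

/-! ### Piece F: negative correlation of threshold events -/

def S_F : Prop := ∀ (C : Type) [Fintype C] [DecidableEq C] [Nonempty C] (k : ℕ) [NeZero k]
  (n : ℕ) (U U' : Finset C) (t : C → ℕ), Disjoint U U' →
  thr C k n (U ∪ U') t ≤ thr C k n U t * thr C k n U' t

/-! ### Piece G: lower bound of the threshold probability -/

def S_G : Prop := ∀ (C : Type) [Fintype C] [DecidableEq C] [Nonempty C] (k : ℕ) [NeZero k]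
  (n ν κ : ℕ) (U : Finset C), n = Fintype.card C * ν → 1 ≤ ν → 1 ≤ κ → 1 ≤ U.card →
  2 * (U.card * κ) ^ 2 ≤ Fintype.card C → 4 * U.card ^ 2 * ν ≤ Fintype.card C →
  ENNReal.ofReal ((1 / 4) * ((ν : ℝ) ^ κ * Real.exp (-ν) / (κ.factorial : ℝ)) ^ U.card) ≤
    thr C k n U (fun _ => κ)

/-! ### Piece H: windows -/

/-- H1: product formula for a window. -/
def S_H1 : Prop := ∀ (N k : ℕ) [NeZero N] [NeZero k] (κ : ℕ) (c : ZMod N) (n : ℕ) (ns : List ℕ),
  (periods (ZMod N × Fin k) (n :: ns)).toOuterMeasure {ls | Good κ c ls} =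
    thr (ZMod N) k n (win c ns.length) (fun _ => κ) *
      (periods (ZMod N × Fin k) ns).toOuterMeasure {ls | Good κ c ls}

/-- H2: two windows with disjoint columns. -/
def S_H2 : Prop := ∀ (N k : ℕ) [NeZero N] [NeZero k] (κ : ℕ) (c c' : ZMod N) (ns : List ℕ),
  (∀ q, q < ns.length → Disjoint (win c q) (win c' q)) →
  (periods (ZMod N × Fin k) ns).toOuterMeasure {ls | Good κ c ls ∧ Good κ c' ls} ≤
    (periods (ZMod N × Fin k) ns).toOuterMeasure {ls | Good κ c ls} *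
      (periods (ZMod N × Fin k) ns).toOuterMeasure {ls | Good κ c' ls}

/-- H3: the second moment method for pairwise negatively correlated events. -/
def S_H3 : Prop := ∀ (α : Type) (p : PMF α) (J : ℕ) (A : ℕ → Set α) (b : ℝ), 0 < b →
  (∀ j, j < J → ENNReal.ofReal b ≤ p.toOuterMeasure (A j)) →
  (∀ i j, i < J → j < J → i ≠ j →
    p.toOuterMeasure (A i ∩ A j) ≤ p.toOuterMeasure (A i) * p.toOuterMeasure (A j)) →
  1 ≤ J → p.toOuterMeasure {x | ∀ j, j < J → x ∉ A j} ≤ ENNReal.ofReal (1 / (J * b))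

/-- H: no good window. -/
def S_H : Prop := ∀ (N k κ M J : ℕ) [NeZero N] [NeZero k] (ns : List ℕ) (b : ℝ), 1 ≤ M → 1 ≤ J →
  N = 2 * M * J → ns.length = M → 0 < b →
  (∀ c : ZMod N, ENNReal.ofReal b ≤
    (periods (ZMod N × Fin k) ns).toOuterMeasure {ls | Good κ c ls}) →
  (periods (ZMod N × Fin k) ns).toOuterMeasure
    {ls | ∀ c : ZMod N, ¬ Good κ c ls} ≤ ENNReal.ofReal (1 / (J * b))

/-! ### Piece I: the graph -/

def S_I1 : Prop := ∀ (N k : ℕ) [NeZero N], 3 ≤ N → 2 ≤ k → (gr N k).Connected ∧ VTrans (gr N k)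

def S_I2 : Prop := ∀ (N k r : ℕ) [NeZero N], 3 ≤ N → 2 ≤ k → 1 ≤ r → 2 * r - 1 ≤ N →
  Real.log (N * k) ≤ (r : ℝ) * ((2 * r - 1) * k) → R2 (gr N k) ≤ r

def S_I3 : Prop := ∀ (N k : ℕ) [NeZero N], 3 ≤ N → 2 ≤ k →
  Real.log (N * k) ≤ (R2 (gr N k) : ℝ) * ((2 * R2 (gr N k) + 1) * k)

/-! ### Piece K: choice of the parameters -/

/-- lower bound of the probability of a good window -/
noncomputable def pw (k κ : ℕ) : ℕ → ℝ
  | 0 => 1
  | M + 1 => (1 / 4) * ((nu k M : ℝ) ^ κ * Real.exp (-(nu k M : ℝ)) / (κ.factorial : ℝ)) ^ (2 * M + 1)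
      * pw k κ M

def S_K : Prop := ∀ M : ℕ, 1 ≤ M → ∃ k J g : ℕ, 2 ≤ k ∧ 3 ≤ J ∧ k ≥ M ∧
  (∀ q < M, 2 * (q + 1) ∣ k) ∧
  (∀ q < M, 2 * ((2 * q + 1) * (k + g)) ^ 2 ≤ 2 * M * J ∧ 4 * (2 * q + 1) ^ 2 * nu k q ≤ 2 * M * J) ∧
  (M : ℝ) ≤ J * pw k (k + g) M ∧
  (M : ℝ) ^ 2 * (2 * (harmonic k : ℝ) / (g + 1)) ≤ 1 / M ∧
  5 * k * (harmonic M : ℝ) ≤ Real.log ((2 * M * J : ℕ) * k) ∧
  Real.log ((2 * M * J : ℕ) * k) ≤ 6 * k * (harmonic M : ℝ) ∧
  20 * M ≤ 2 * M * J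

end Pool.Agent.R88.LS
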